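import Pool.Agent.helper70.RK.Spec
set_option autoImplicit false
namespace RK
open QS (Lef EAb)
open LEQ (Stb Nz XS Ls Mb FS mem_FS)

theorem A1R_triv {G : Type} [Group G] [Finite G] {p : ℕ} (hp : p.Prime) {V : Subgroup G}
    (hV : ¬ p ∣ Nat.card V) {R : Subgroup G} (hR : IsPGroup p R) {z : G} (hz : z ∈ V) (hzR : z ∈ R) : z = 1 := by
  obtain ⟨k, hk⟩ := hR ⟨z, hzR⟩
  have h1 : z ^ p ^ k = 1 := by
    have := congrArg Subtype.val hk
    simpa using this
  have h2 : z ^ Nat.card V = 1 := by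
    exact congrArg Subtype.val (pow_card_eq_one' (x := (⟨z, hz⟩ : V)))
  have hc : Nat.Coprime (p ^ k) (Nat.card V) := Nat.Coprime.pow_left _ ((Nat.Prime.coprime_iff_not_dvd hp).2 hV)
  have := Nat.Coprime.eq_one_of_dvd (Nat.Coprime.coprime_dvd_left (orderOf_dvd_of_pow_eq_one h1) hc)
    (orderOf_dvd_of_pow_eq_one h2)
  exact orderOf_eq_one_iff.1 this

theorem A1R (hOPN : OPN_stmt) : A1R_stmt := by
  intro G _ _ p hp hO V hVn hV hcomm u hu R hRC hRn hR
  have hVC : ∀ v ∈ V, v ∈ Subgroup.centralizer ({u} : Set G) := by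
    intro v hv
    rw [Subgroup.mem_centralizer_singleton_iff]
    exact hcomm v hv u hu
  have h1 : ∀ r ∈ R, ∀ v ∈ V, r * v = v * r := by
    intro r hr v hv
    have a1 : r * v * r⁻¹ * v⁻¹ ∈ V := V.mul_mem (hVn.conj_mem v hv r) (V.inv_mem hv)
    have a2 : r * v * r⁻¹ * v⁻¹ ∈ R := by
      have : r * (v * r⁻¹ * v⁻¹) ∈ R := R.mul_mem hr (hRn v (hVC v hv) _ (R.inv_mem hr))
      simpa [mul_assoc] using this
    have a3 := A1R_triv hp hV hR a1 a2
    have a4 : r * v * r⁻¹ = v := mul_inv_eq_one.1 a3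
    exact mul_inv_eq_iff_eq_mul.1 a4
  have hBn : (Subgroup.centralizer (V : Set G)).Normal := by
    have := hVn
    infer_instance
  have h2 : R ≤ Subgroup.centralizer (V : Set G) := by
    intro r hr
    rw [Subgroup.mem_centralizer_iff]
    intro v hv
    exact (h1 r hr v hv).symm
  refine hOPN G p hp hO _ hBn R h2 ?_ hR
  intro b hb x hx
  refine hRn b ?_ x hx
  rw [Subgroup.mem_centralizer_iff] at hb
  rw [Subgroup.mem_centralizer_singleton_iff]
  exact (hb u hu).symm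

end RK
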