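import Pool.Agent.helper70.RK.FCM
set_option autoImplicit false
namespace RK
open QS (Lef EAb)
open LEQ (Stb Nz XS Ls Mb FS mem_FS)

/-- a set of representatives of the `M`-orbits of conjugates of `S` -/
theorem A2F_rep {G : Type} [Group G] [Finite G] (M S : Subgroup G) :
    ∃ I : Finset (Subgroup G), (∀ K ∈ I, IsC S K) ∧
      (∀ K ∈ I, ∀ m ∈ M, Cj m K ∈ I → Cj m K = K) ∧
      (∀ K', IsC S K' → ∃ K ∈ I, ∃ m ∈ M, K' = Cj m K) := by
  classical
  -- the equivalence relation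
  let r : Setoid (Subgroup G) :=
    { r := fun K K' => ∃ m ∈ M, K' = Cj m K
      iseqv :=
        { refl := fun K => ⟨1, M.one_mem, (FCM_Cj_one K).symm⟩
          symm := by
            rintro K K' ⟨m, hm, rfl⟩
            exact ⟨m⁻¹, M.inv_mem hm, by rw [FCM_Cj_mul, inv_mul_cancel, FCM_Cj_one]⟩
          trans := by
            rintro K K' K'' ⟨m, hm, rfl⟩ ⟨m', hm', rfl⟩
            exact ⟨m' * m, M.mul_mem hm' hm, by rw [FCM_Cj_mul]⟩ } }
  let f : Subgroup G → Subgroup G := fun K => (Quotient.mk r K).out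
  have hf : ∀ K, ∃ m ∈ M, K = Cj m (f K) := fun K => Quotient.exact (Quotient.out_eq (Quotient.mk r K))
  have hff : ∀ K K', (∃ m ∈ M, K' = Cj m K) → f K = f K' := fun K K' h => by
    have : Quotient.mk r K = Quotient.mk r K' := Quotient.sound h
    change (Quotient.mk r K).out = (Quotient.mk r K').out
    rw [this]
  have hfidem : ∀ K, f (f K) = f K := fun K => hff _ _ (hf K)
  have hfC : ∀ K, IsC S K → IsC S (f K) := by
    intro K hK
    obtain ⟨m, -, hm⟩ := hf K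
    obtain ⟨g, hg⟩ := hK
    refine ⟨m⁻¹ * g, ?_⟩
    rw [← FCM_Cj_mul, ← hg, hm, FCM_Cj_mul, inv_mul_cancel, FCM_Cj_one]
    -- remaining: `f (Cj m (f K)) = f K`
    rw [← hm]
  refine ⟨(Set.toFinite {K : Subgroup G | IsC S K ∧ f K = K}).toFinset, ?_, ?_, ?_⟩
  · intro K hK
    rw [Set.Finite.mem_toFinset] at hK
    exact hK.1
  · intro K hK m hm hmK
    rw [Set.Finite.mem_toFinset] at hK hmK
    have h1 := hff K (Cj m K) ⟨m, hm, rfl⟩
    rw [hK.2, hmK.2] at h1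
    exact h1.symm
  · intro K' hK'
    obtain ⟨m, hm, hK⟩ := hf K'
    refine ⟨f K', ?_, m, hm, hK⟩
    rw [Set.Finite.mem_toFinset]
    exact ⟨hfC K' hK', hfidem K'⟩

theorem A2F (hAFI : AFI_stmt) (hFCM : FCM_stmt) (hPRD : PRD_stmt) (hGDE : GDE_stmt) (hA2M : A2M_stmt)
    (hA2R : A2R_stmt) : A2F_stmt := by
  classical
  intro G _ _ p hp hO hR hB V M S hMV hF
  obtain ⟨f1, f2, f3⟩ := hFCM G V S hF
  have hex : ∀ K : Subgroup G, ∃ a : G, IsC S K → Gd p K a := by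
    intro K
    by_cases hK : IsC S K
    · obtain ⟨a, ha⟩ := hGDE G p hp hB V K hMV.vn hMV.vp (f2 K hK).2.1 (f2 K hK).1
      exact ⟨a, fun _ => ha⟩
    · exact ⟨1, fun h => absurd h hK⟩
  choose g hg using hex
  obtain ⟨I, hI, hI1, hI2⟩ := A2F_rep M S
  obtain ⟨u, hu, hu1, hu2⟩ := hPRD G V S hF g (fun K hK => (hg K hK).1) I hI
  exact hAFI G p hp hR V M hMV u hu
    (hA2M G p hp hO V M S hMV hF g hg I hI hI1 hI2 u hu1 hu2)
    (hA2R G p hp hO V S hMV.vp hF g hg I hI u hu hu1 hu2)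

end RK
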