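import Pool.Agent.helper70.RK.FCM
import Pool.Agent.helper70.RK.A1R
set_option autoImplicit false
namespace RK
open QS (Lef EAb)
open LEQ (Stb Nz XS Ls Mb FS mem_FS)

theorem A2R (hOPN : OPN_stmt) (hFCM : FCM_stmt) : A2R_stmt := by
  intro G _ _ p hp hO V S hV hF g hg I hI u huV hu1 hu2 R hRC hRn hR
  obtain ⟨f1, f2, f3⟩ := hFCM G V S hF
  have hVn := hF.nn
  have hcen : ∀ x : G, x ∈ Subgroup.centralizer ({u} : Set G) ↔ x * u = u * x := fun x =>
    Subgroup.mem_centralizer_singleton_iff
  -- `R` commutes with all `v ∈ V` commuting with `u`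
  have h1 : ∀ r ∈ R, ∀ v ∈ V, v * u = u * v → r * v = v * r := by
    intro r hr v hv hvu
    have a1 : r * v * r⁻¹ * v⁻¹ ∈ V := V.mul_mem (hVn.conj_mem v hv r) (V.inv_mem hv)
    have a2 : r * v * r⁻¹ * v⁻¹ ∈ R := by
      have : r * (v * r⁻¹ * v⁻¹) ∈ R := R.mul_mem hr (hRn v ((hcen v).2 hvu) _ (R.inv_mem hr))
      simpa [mul_assoc] using this
    have a3 := A1R_triv hp hV hR a1 a2
    have a4 : r * v * r⁻¹ = v := mul_inv_eq_one.1 a3
    exact mul_inv_eq_iff_eq_mul.1 a4
  -- `R` commutes with all conjugates of `S`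
  have h2 : ∀ K : Subgroup G, IsC S K → ∀ r ∈ R, Com K r := by
    intro K hK
    obtain ⟨hNS, hKV, hKst, hKC, hKcen, -⟩ := f2 K hK
    by_cases hKI : K ∈ I
    · obtain ⟨v, hv, huv⟩ := hu1 K hKI
      obtain ⟨hgK, hgK1, hgood⟩ := hg K hK
      have hgu : g K * u = u * g K := by
        have := hv (g K) hgK
        rw [huv, mul_assoc, ← this]
      have hrg : ∀ r ∈ R, r * g K = g K * r := fun r hr => h1 r hr (g K) (hKV hgK) hgu
      have hnorm : ∀ r ∈ R, Cj r K = K := by
        intro r hr
        by_contra hne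
        have hint := (f1 (Cj r K) K (hKC r) hK hne).2
        have hm : g K ∈ Cj r K := by
          rw [mem_Cj]
          have : r⁻¹ * g K * r = g K := by rw [mul_assoc, ← hrg r hr]; group
          rwa [this]
        have hm2 : g K ∈ Cj r K ⊓ K := ⟨hm, hgK⟩
        rw [hint, Subgroup.mem_bot] at hm2
        exact hgK1 hm2
      -- induction on the exponent
      have key : ∀ k : ℕ, ∀ r ∈ R, r ^ p ^ k = 1 → Com K r := by
        intro k
        induction k with
        | zero =>
          intro r _ h y _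
          rw [pow_zero, pow_one] at h
          rw [h, mul_one, one_mul]
        | succ k ih =>
          intro r hr h
          refine hgood r (hnorm r hr) (ih (r ^ p) (R.pow_mem hr p) ?_) (hrg r hr)
          rw [← pow_mul, ← pow_succ']
          exact h
      intro r hr
      obtain ⟨k, hk⟩ := hR ⟨r, hr⟩
      exact key k r hr (congrArg Subtype.val hk)
    · intro r hr y hy
      have := hu2 K hK hKI y hy
      exact (h1 r hr y (hKV hy) this).symm
  have h3 : ∀ r ∈ R, Com V r := fun r hr => f3 r (fun K hK => h2 K hK r hr)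
  have hBn : (Subgroup.centralizer (V : Set G)).Normal := by
    have := hVn
    infer_instance
  have h4 : R ≤ Subgroup.centralizer (V : Set G) := by
    intro r hr
    rw [Subgroup.mem_centralizer_iff]
    intro v hv
    exact h3 r hr v hv
  refine hOPN G p hp hO _ hBn R h4 ?_ hR
  intro b hb x hx
  refine hRn b ?_ x hx
  rw [Subgroup.mem_centralizer_iff] at hb
  rw [hcen]
  exact (hb u huV).symm

end RK
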