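import Pool.Agent.helper70.RK.Spec
set_option autoImplicit false
namespace RK
open QS (Lef EAb)
open LEQ (Stb Nz XS Ls Mb FS mem_FS)

theorem AFI_triv {G : Type} [Group G] [Finite G] {p : ℕ} (hp : p.Prime) {V : Subgroup G}
    (hV : ¬ p ∣ Nat.card V) {z : G} (hz : z ∈ V) (hzp : z ^ p = 1) : z = 1 := by
  have h2 : z ^ Nat.card V = 1 := congrArg Subtype.val (pow_card_eq_one' (x := (⟨z, hz⟩ : V)))
  have hc : Nat.Coprime p (Nat.card V) := (Nat.Prime.coprime_iff_not_dvd hp).2 hV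
  have := Nat.Coprime.eq_one_of_dvd (Nat.Coprime.coprime_dvd_left (orderOf_dvd_of_pow_eq_one hzp) hc)
    (orderOf_dvd_of_pow_eq_one h2)
  exact orderOf_eq_one_iff.1 this

theorem AFI (hST2 : ST2_stmt) : AFI_stmt := by
  intro G _ _ p hp hR V M hMV u hu hreg hO
  refine ⟨u, hST2 G p hp hR u M hMV.mp ?_ ?_ hO⟩
  · intro E hE hS x hx
    have a1 : u * x * u⁻¹ * x⁻¹ ∈ V := by
      have : u * (x * u⁻¹ * x⁻¹) ∈ V := V.mul_mem hu (hMV.vn.conj_mem _ (V.inv_mem hu) x)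
      simpa [mul_assoc] using this
    have a2 : u * x * u⁻¹ * x⁻¹ ∈ E := E.mul_mem ((hS x).1 hx) (E.inv_mem hx)
    have a3 := AFI_triv hp hMV.vp a1 (hE.2 _ a2)
    have a4 : u * x * u⁻¹ = x := mul_inv_eq_one.1 a3
    exact (mul_inv_eq_iff_eq_mul.1 a4).symm
  · intro E hE hC
    refine ⟨fun e _ x => ⟨fun h => hMV.mn.conj_mem x h e, fun h => ?_⟩, ?_⟩
    · have := hMV.mn.conj_mem _ h e⁻¹
      simpa [mul_assoc] using this
    · rw [Subgroup.eq_bot_iff_forall]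
      intro x hx
      exact hreg x hx.2 (hE.2 x hx.1) (hC x hx.1)

end RK
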