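import Pool.Agent.helper70.RK.Spec
set_option autoImplicit false
namespace RK
open QS (Lef EAb)
open LEQ (Stb Nz XS Ls Mb FS mem_FS)

theorem B4_mono {G : Type} [Group G] {p : ℕ} {E F : Subgroup G} (hE : EAb p E) (hF : F ≤ E) : EAb p F :=
  ⟨fun x hx y hy => hE.1 x (hF hx) y (hF hy), fun x hx => hE.2 x (hF hx)⟩

theorem B4_zp {G : Type} [Group G] {p : ℕ} {z : G} (hz : z ^ p = 1) : EAb p (Subgroup.zpowers z) := by
  refine ⟨?_, ?_⟩
  · intro x hx y hy
    obtain ⟨a, rfl⟩ := Subgroup.mem_zpowers_iff.1 hx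
    obtain ⟨b, rfl⟩ := Subgroup.mem_zpowers_iff.1 hy
    rw [← zpow_add, ← zpow_add, add_comm]
  · intro x hx
    obtain ⟨a, rfl⟩ := Subgroup.mem_zpowers_iff.1 hx
    rw [← zpow_natCast, ← zpow_mul, mul_comm, zpow_mul, zpow_natCast, hz, one_zpow]

/-- a subgroup of elements commuting with `u` is stable under `u` -/
theorem B4_stb {G : Type} [Group G] {E : Subgroup G} {u : G} (h : ∀ x ∈ E, x * u = u * x) : Stb u E := by
  intro x
  constructor
  · intro hx
    have : u * x * u⁻¹ = x := by rw [← h x hx]; group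
    rwa [this]
  · intro hx
    have h1 := h _ hx
    have h2 : x = u * x * u⁻¹ := by
      have h3 : u * x = u * (u * x * u⁻¹) := by simpa [mul_assoc] using h1
      exact mul_left_cancel h3
    rw [h2]
    exact hx

/-- a nontrivial `p`-group contained in `X` and commuting with `u` contradicts `Der` -/
theorem B4_bot {G : Type} [Group G] [Finite G] {p : ℕ} (hp : p.Prime) {X R : Subgroup G} {u : G}
    (hD : Der p X u) (hRX : R ≤ X) (hR : IsPGroup p R) (hc : ∀ x ∈ R, x * u = u * x) : R = ⊥ := by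
  by_contra hne
  have := Fact.mk hp
  have hnt : Nontrivial R := (Subgroup.nontrivial_iff_ne_bot R).2 hne
  obtain ⟨n, hn, hcard⟩ := (IsPGroup.nontrivial_iff_card hR).1 hnt
  have hdvd : p ∣ Nat.card R := by
    rw [hcard]
    exact dvd_pow_self p hn.ne'
  obtain ⟨z, hz⟩ := exists_prime_orderOf_dvd_card' p hdvd
  have hzp : (z : G) ^ p = 1 := by
    have h1 : z ^ p = 1 := by rw [← hz]; exact pow_orderOf_eq_one z
    have := congrArg Subtype.val h1
    simpa using this
  have hz1 : (z : G) ≠ 1 := by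
    intro h
    have h1 : z = 1 := Subtype.ext h
    rw [h1, orderOf_one] at hz
    exact hp.one_lt.ne hz
  have hzle : Subgroup.zpowers (z : G) ≤ R := by
    rw [Subgroup.zpowers_le]
    exact z.2
  have h2 := hD (Subgroup.zpowers (z : G)) (hzle.trans hRX) (B4_zp hzp)
    (B4_stb (fun x hx => hc x (hzle hx)))
  rw [Subgroup.zpowers_eq_bot] at h2
  exact hz1 h2

theorem B4 (hST2 : ST2_stmt) (hDRG : DRG_stmt) (hBY1 : BY1_stmt) (hBY2 : BY2_stmt) : B4_stmt := by
  intro G _ _ p hp hR N S Y D hB hSn hRY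
  obtain ⟨hDY, hcD, hoD, hpD, hpY, hSD⟩ := hBY2 G p hp N S Y D hB
  have hoY := hBY1 G p hp N S Y D hB
  have hYn : Y.Normal := by
    rw [hB.ey]
    have := hSn
    infer_instance
  have hDn : D.Normal := by
    rw [hB.ed]
    have := hYn
    infer_instance
  obtain ⟨u, huY, hu⟩ := hDRG G p hp Y hRY hpY hoY
  have hint : ∀ E : Subgroup G, EAb p E → Stb u E → E ⊓ Y = ⊥ := by
    intro E hE hS
    refine hu (E ⊓ Y) inf_le_right (B4_mono hE inf_le_left) ?_
    intro x
    constructor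
    · intro hx
      exact ⟨(hS x).1 hx.1, hYn.conj_mem x hx.2 u⟩
    · intro hx
      refine ⟨(hS x).2 hx.1, ?_⟩
      have := hYn.conj_mem _ hx.2 u⁻¹
      simpa [mul_assoc] using this
  refine ⟨u, hST2 G p hp hR u Y hpY ?_ ?_ ?_⟩
  · intro E hE hS x hx
    have a1 : u * x * u⁻¹ * x⁻¹ ∈ Y := by
      have : u * (x * u⁻¹ * x⁻¹) ∈ Y := Y.mul_mem huY (hYn.conj_mem _ (Y.inv_mem huY) x)
      simpa [mul_assoc] using this
    have a2 : u * x * u⁻¹ * x⁻¹ ∈ E := E.mul_mem ((hS x).1 hx) (E.inv_mem hx)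
    have a3 : u * x * u⁻¹ * x⁻¹ ∈ E ⊓ Y := ⟨a2, a1⟩
    rw [hint E hE hS, Subgroup.mem_bot] at a3
    have a4 : u * x * u⁻¹ = x := mul_inv_eq_one.1 a3
    exact (mul_inv_eq_iff_eq_mul.1 a4).symm
  · intro E hE hC
    refine ⟨fun e _ x => ⟨fun h => hYn.conj_mem x h e, fun h => ?_⟩, hint E hE (B4_stb hC)⟩
    have := hYn.conj_mem _ h e⁻¹
    simpa [mul_assoc] using this
  · intro R hRC hRn hRp
    have hcen : ∀ x : G, x ∈ Subgroup.centralizer ({u} : Set G) ↔ x * u = u * x := fun x =>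
      Subgroup.mem_centralizer_singleton_iff
    have hDC : ∀ d ∈ D, d ∈ Subgroup.centralizer ({u} : Set G) := by
      intro d hd
      rw [hcen]
      rw [hB.ed, Subgroup.mem_centralizer_iff] at hd
      exact (hd u huY).symm
    have hRD : R ⊓ D = ⊥ := by
      refine hoD (R ⊓ D) inf_le_right ?_ ?_
      · intro d hd x hx
        exact ⟨hRn d (hDC d hd) x hx.1, hDn.conj_mem x hx.2 d⟩
      · exact hRp.to_le inf_le_left
    have hcomm : ∀ r ∈ R, ∀ d ∈ D, d * r = r * d := by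
      intro r hr d hd
      have a1 : r * d * r⁻¹ * d⁻¹ ∈ D := D.mul_mem (hDn.conj_mem d hd r) (D.inv_mem hd)
      have a2 : r * d * r⁻¹ * d⁻¹ ∈ R := by
        have : r * (d * r⁻¹ * d⁻¹) ∈ R := R.mul_mem hr (hRn d (hDC d hd) _ (R.inv_mem hr))
        simpa [mul_assoc] using this
      have a3 : r * d * r⁻¹ * d⁻¹ ∈ R ⊓ D := ⟨a2, a1⟩
      rw [hRD, Subgroup.mem_bot] at a3
      have a4 : r * d * r⁻¹ = d := mul_inv_eq_one.1 a3
      exact (mul_inv_eq_iff_eq_mul.1 a4).symm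
    have hRY' : R ≤ Y := by
      intro r hr
      rw [← hcD, Subgroup.mem_centralizer_iff]
      intro d hd
      exact hcomm r hr d hd
    exact B4_bot hp hu hRY' hRp (fun x hx => (hcen x).1 (hRC hx))

end RK
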