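import Pool.Agent.helper70.RK.Spec
import Pool.Agent.helper70.RK.B4
set_option autoImplicit false
namespace RK
open QS (Lef EAb)
open LEQ (Stb Nz XS Ls Mb FS mem_FS)

theorem B3_norm {G : Type} [Group G] {e : G} {D : Subgroup G} (h : Cj e D = D) (x : G) :
    x ∈ D ↔ e * x * e⁻¹ ∈ D := by
  constructor
  · intro hx
    have : e * x * e⁻¹ ∈ Cj e D := mem_Cj.2 (by simpa [mul_assoc] using hx)
    rwa [h] at this
  · intro hx
    rw [← h] at hx
    have := mem_Cj.1 hx
    simpa [mul_assoc] using this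

theorem B3 (hST2 : ST2_stmt) (hDRG : DRG_stmt) (hBY1 : BY1_stmt) (hBY2 : BY2_stmt) (hBY3 : BY3_stmt)
    (hBNO : BNO_stmt) : B3_stmt := by
  intro G _ _ p hp hR N S Y D hB hRD
  obtain ⟨hDY, hcD, hoD, hpD, hpY, hSD⟩ := hBY2 G p hp N S Y D hB
  have hoY := hBY1 G p hp N S Y D hB
  obtain ⟨u, huD, hu⟩ := hDRG G p hp D hRD hpD hoD
  have hcYD : ∀ y ∈ Y, ∀ d ∈ D, y * d = d * y := by
    intro y hy d hd
    rw [hB.ed, Subgroup.mem_centralizer_iff] at hd
    exact hd y hy
  have hup : u ^ p ≠ 1 := by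
    intro h
    have h1 := hu (Subgroup.zpowers u) (by rw [Subgroup.zpowers_le]; exact huD) (B4_zp h)
      (B4_stb (fun x hx => by
        obtain ⟨a, rfl⟩ := Subgroup.mem_zpowers_iff.1 hx
        exact (Commute.refl u).zpow_left a))
    rw [Subgroup.zpowers_eq_bot] at h1
    subst h1
    have := Fact.mk hp
    obtain ⟨z, hz⟩ := exists_prime_orderOf_dvd_card' p hpD
    have hzp : (z : G) ^ p = 1 := by
      have h1 : z ^ p = 1 := by rw [← hz]; exact pow_orderOf_eq_one z
      have := congrArg Subtype.val h1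
      simpa using this
    have h2 := hu (Subgroup.zpowers (z : G)) (by rw [Subgroup.zpowers_le]; exact z.2) (B4_zp hzp)
      (fun x => by simp)
    rw [Subgroup.zpowers_eq_bot] at h2
    have h3 : z = 1 := Subtype.ext h2
    rw [h3, orderOf_one] at hz
    exact hp.one_lt.ne hz
  -- an element commuting with `u` normalises `S`
  have hnorm : ∀ x : G, x * u = u * x → Cj x S = S := by
    intro x hx
    by_contra hne
    obtain ⟨-, -, h3⟩ := hBY3 G p hp N S Y D hB hDY hcD x hne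
    have h4 : u ∈ Cj x D := by
      rw [mem_Cj]
      have : x⁻¹ * u * x = u := by rw [mul_assoc, ← hx]; group
      rwa [this]
    have h5 : u ∈ D ⊓ Cj x D := ⟨huD, h4⟩
    rw [h3, Subgroup.mem_bot] at h5
    apply hup
    rw [h5, one_pow]
  have hfirst : ∀ E : Subgroup G, EAb p E → Stb u E → (∀ e ∈ E, Cj e D = D) ∧ E ⊓ D = ⊥ ∧ Com E u := by
    intro E hE hS
    have hS1 : ∀ e ∈ E, Cj e S = S := by
      intro e he
      by_contra hne
      obtain ⟨-, h2, h3⟩ := hBY3 G p hp N S Y D hB hDY hcD e hne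
      have hw : e * u * e⁻¹ ∈ Cj e D := mem_Cj.2 (by simpa [mul_assoc] using huD)
      have hc : u * (e * u * e⁻¹) = e * u * e⁻¹ * u := h2 u huD _ hw
      have hin : u⁻¹ * (e * u * e⁻¹) ∈ E := by
        have h4 : u⁻¹ * e * u ∈ E := by
          rw [hS]
          simpa [mul_assoc] using he
        have h5 := E.mul_mem h4 (E.inv_mem he)
        simpa [mul_assoc] using h5
      have h6 := hE.2 _ hin
      have hcm : Commute u⁻¹ (e * u * e⁻¹) := (show Commute u (e * u * e⁻¹) from hc).inv_left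
      rw [hcm.mul_pow] at h6
      have h7 : (e * u * e⁻¹) ^ p = u ^ p := by
        rw [inv_pow] at h6
        exact (inv_mul_eq_one.1 h6).symm
      have h8 : u ^ p ∈ D ⊓ Cj e D := by
        refine ⟨D.pow_mem huD p, ?_⟩
        rw [← h7]
        exact (Cj e D).pow_mem hw p
      rw [h3, Subgroup.mem_bot] at h8
      exact hup h8
    have hD1 : ∀ e ∈ E, Cj e D = D := fun e he => (hBNO G p N S Y D hB e (hS1 e he)).2
    have hint : E ⊓ D = ⊥ := by
      refine hu (E ⊓ D) inf_le_right (B4_mono hE inf_le_left) ?_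
      intro x
      constructor
      · intro hx
        exact ⟨(hS x).1 hx.1, D.mul_mem (D.mul_mem huD hx.2) (D.inv_mem huD)⟩
      · intro hx
        refine ⟨(hS x).2 hx.1, ?_⟩
        have := D.mul_mem (D.mul_mem (D.inv_mem huD) hx.2) huD
        simpa [mul_assoc] using this
    refine ⟨hD1, hint, ?_⟩
    intro e he
    have a1 : e * u * e⁻¹ * u⁻¹ ∈ D := D.mul_mem ((B3_norm (hD1 e he) u).1 huD) (D.inv_mem huD)
    have a2 : e * u * e⁻¹ * u⁻¹ ∈ E := by
      have : e * (u * e⁻¹ * u⁻¹) ∈ E := E.mul_mem he ((hS _).1 (E.inv_mem he))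
      simpa [mul_assoc] using this
    have a3 : e * u * e⁻¹ * u⁻¹ ∈ E ⊓ D := ⟨a2, a1⟩
    rw [hint, Subgroup.mem_bot] at a3
    have a4 : e * u * e⁻¹ = u := mul_inv_eq_one.1 a3
    exact mul_inv_eq_iff_eq_mul.1 a4
  refine ⟨u, hST2 G p hp hR u D hpD ?_ ?_ ?_⟩
  · intro E hE hS
    exact (hfirst E hE hS).2.2
  · intro E hE hC
    obtain ⟨h1, h2, -⟩ := hfirst E hE (B4_stb hC)
    exact ⟨fun e he x => B3_norm (h1 e he) x, h2⟩
  · intro R hRC hRn hRp
    have hcen : ∀ x : G, x ∈ Subgroup.centralizer ({u} : Set G) ↔ x * u = u * x := fun x =>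
      Subgroup.mem_centralizer_singleton_iff
    have hYC : ∀ y ∈ Y, y ∈ Subgroup.centralizer ({u} : Set G) := by
      intro y hy
      rw [hcen]
      exact hcYD y hy u huD
    have hYn : ∀ c ∈ Subgroup.centralizer ({u} : Set G), ∀ y ∈ Y, c * y * c⁻¹ ∈ Y := by
      intro c hc y hy
      have h1 := (hBNO G p N S Y D hB c (hnorm c ((hcen c).1 hc))).1
      exact (B3_norm h1 y).1 hy
    have hRY : R ⊓ Y = ⊥ := by
      refine hoY (R ⊓ Y) inf_le_right ?_ ?_
      · intro y hy x hx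
        exact ⟨hRn y (hYC y hy) x hx.1, Y.mul_mem (Y.mul_mem hy hx.2) (Y.inv_mem hy)⟩
      · exact hRp.to_le inf_le_left
    have hRD' : R ≤ D := by
      intro r hr
      rw [hB.ed, Subgroup.mem_centralizer_iff]
      intro y hy
      have a1 : r * y * r⁻¹ * y⁻¹ ∈ Y := Y.mul_mem (hYn r (hRC hr) y hy) (Y.inv_mem hy)
      have a2 : r * y * r⁻¹ * y⁻¹ ∈ R := by
        have : r * (y * r⁻¹ * y⁻¹) ∈ R := R.mul_mem hr (hRn y (hYC y hy) _ (R.inv_mem hr))
        simpa [mul_assoc] using this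
      have a3 : r * y * r⁻¹ * y⁻¹ ∈ R ⊓ Y := ⟨a2, a1⟩
      rw [hRY, Subgroup.mem_bot] at a3
      have a4 : r * y * r⁻¹ = y := mul_inv_eq_one.1 a3
      exact (mul_inv_eq_iff_eq_mul.1 a4).symm
    exact B4_bot hp hu hRD' hRp (fun x hx => (hcen x).1 (hRC hx))

end RK
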