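import Pool.Agent.helper70.RK.Spec
set_option autoImplicit false
namespace RK
open QS (Lef EAb)
open LEQ (Stb Nz XS Ls Mb FS mem_FS)

theorem BNO_cen {G : Type} [Group G] (e : G) (S : Subgroup G) :
    Cj e (Subgroup.centralizer (S : Set G)) = Subgroup.centralizer (Cj e S : Set G) := by
  ext x
  rw [mem_Cj, Subgroup.mem_centralizer_iff, Subgroup.mem_centralizer_iff]
  constructor
  · intro h y hy
    have hy' : e⁻¹ * y * e ∈ S := mem_Cj.1 hy
    have := h _ hy'
    have h2 : e * (e⁻¹ * y * e * (e⁻¹ * x * e)) * e⁻¹ = e * (e⁻¹ * x * e * (e⁻¹ * y * e)) * e⁻¹ := by rw [this]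
    simpa [mul_assoc] using h2
  · intro h y hy
    have hy' : e * y * e⁻¹ ∈ Cj e S := mem_Cj.2 (by simpa [mul_assoc] using hy)
    have := h _ hy'
    have h2 : e⁻¹ * (e * y * e⁻¹ * x) * e = e⁻¹ * (x * (e * y * e⁻¹)) * e := by rw [this]
    simpa [mul_assoc] using h2

theorem BNO : BNO_stmt := by
  intro G _ _ p N S Y D hB e he
  have h1 : Cj e Y = Y := by rw [hB.ey, BNO_cen, he]
  exact ⟨h1, by rw [hB.ed, BNO_cen, h1]⟩

end RK
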