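import Pool.Agent.helper70.RK.Spec
set_option autoImplicit false
namespace RK
open QS (Lef EAb)
open LEQ (Stb Nz XS Ls Mb FS mem_FS)

theorem FCM_Cj_mul {G : Type} [Group G] (a b : G) (S : Subgroup G) : Cj a (Cj b S) = Cj (a * b) S := by
  ext x
  rw [mem_Cj, mem_Cj, mem_Cj]
  have : b⁻¹ * (a⁻¹ * x * a) * b = (a * b)⁻¹ * x * (a * b) := by group
  rw [this]

theorem FCM_Cj_one {G : Type} [Group G] (S : Subgroup G) : Cj (1 : G) S = S := by
  ext x
  rw [mem_Cj]
  simp

theorem FCM_conj_mem {G : Type} [Group G] {e x : G} {S : Subgroup G} (h : x ∈ S) : e * x * e⁻¹ ∈ Cj e S :=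
  mem_Cj.2 (by simpa [mul_assoc] using h)

/-- conjugation as an isomorphism `S ≃* Cj g S` -/
noncomputable def FCM_iso {G : Type} [Group G] (g : G) (S : Subgroup G) : S ≃* Cj g S :=
  S.equivMapOfInjective (MulAut.conj g).toMonoidHom (MulAut.conj g).injective

theorem FCM_NS {G : Type} [Group G] (g : G) {S : Subgroup G} (h : NS S) : NS (Cj g S) := by
  obtain ⟨h1, x, hx, y, hy, hxy⟩ := h
  refine ⟨?_, g * x * g⁻¹, FCM_conj_mem hx, g * y * g⁻¹, FCM_conj_mem hy, ?_⟩
  · have := h1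
    exact (FCM_iso g S).symm.isSimpleGroup
  · intro h
    apply hxy
    have h2 : g * (x * y) * g⁻¹ = g * (y * x) * g⁻¹ := by
      have h3 : g * (x * y) * g⁻¹ = g * x * g⁻¹ * (g * y * g⁻¹) := by group
      have h4 : g * (y * x) * g⁻¹ = g * y * g⁻¹ * (g * x * g⁻¹) := by group
      rw [h3, h4, h]
    exact mul_left_cancel (mul_right_cancel h2)

theorem FCM_center {G : Type} [Group G] {K : Subgroup G} (h : NS K) (x : G) (hx : x ∈ K)
    (hc : ∀ y ∈ K, x * y = y * x) : x = 1 := by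
  obtain ⟨hs, a, ha, b, hb, hab⟩ := h
  have hZ : (Subgroup.center K) = ⊥ ∨ Subgroup.center K = ⊤ :=
    hs.eq_bot_or_eq_top_of_normal (Subgroup.center K) inferInstance
  rcases hZ with hZ | hZ
  · have hm : (⟨x, hx⟩ : K) ∈ Subgroup.center K := by
      rw [Subgroup.mem_center_iff]
      intro y
      exact Subtype.ext (hc y y.2).symm
    rw [hZ, Subgroup.mem_bot] at hm
    exact congrArg Subtype.val hm
  · exfalso
    apply hab
    have hm : (⟨a, ha⟩ : K) ∈ Subgroup.center K := by rw [hZ]; exact Subgroup.mem_top _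
    rw [Subgroup.mem_center_iff] at hm
    exact (congrArg Subtype.val (hm ⟨b, hb⟩)).symm

theorem FCM : FCM_stmt := by
  intro G _ _ N S hF
  have hNS : ∀ K : Subgroup G, IsC S K → NS K := by
    rintro K ⟨g, rfl⟩
    exact FCM_NS g hF.ns
  have hcm : ∀ K K' : Subgroup G, IsC S K → IsC S K' → K ≠ K' → ∀ x ∈ K, ∀ y ∈ K', x * y = y * x := by
    rintro K K' ⟨h, rfl⟩ ⟨g, rfl⟩ hne x hx y hy
    have hne' : Cj (h⁻¹ * g) S ≠ S := by
      intro heq
      apply hne
      have h1 : Cj h (Cj (h⁻¹ * g) S) = Cj h S := by rw [heq]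
      rw [FCM_Cj_mul, mul_inv_cancel_left] at h1
      exact h1.symm
    have hx' : h⁻¹ * x * h ∈ S := mem_Cj.1 hx
    have hy' : h⁻¹ * y * h ∈ Cj (h⁻¹ * g) S := by
      rw [mem_Cj]
      have : (h⁻¹ * g)⁻¹ * (h⁻¹ * y * h) * (h⁻¹ * g) = g⁻¹ * y * g := by group
      rw [this]
      exact mem_Cj.1 hy
    have h2 := hF.cm _ hne' _ hx' _ hy'
    have h3 : h * (h⁻¹ * x * h * (h⁻¹ * y * h)) * h⁻¹ = h * (h⁻¹ * y * h * (h⁻¹ * x * h)) * h⁻¹ := by rw [h2]
    simpa [mul_assoc] using h3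
  refine ⟨?_, ?_, ?_⟩
  · intro K K' hK hK' hne
    refine ⟨hcm K K' hK hK' hne, ?_⟩
    rw [Subgroup.eq_bot_iff_forall]
    intro x hx
    exact FCM_center (hNS K hK) x hx.1 (fun y hy => (hcm K K' hK hK' hne y hy x hx.2).symm)
  · rintro K hK
    have hK' := hK
    obtain ⟨g, rfl⟩ := hK
    have hcardeq : Nat.card (Cj g S) = Nat.card S := Nat.card_congr (FCM_iso g S).symm.toEquiv
    refine ⟨hNS _ hK', ?_, ?_, ?_, ?_, hcardeq⟩
    · intro x hx
      have h1 := hF.le (mem_Cj.1 hx)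
      have h2 := hF.nn.conj_mem _ h1 g
      simpa [mul_assoc] using h2
    · intro v hv
      have h1 : g⁻¹ * v * g ∈ N := by
        have := hF.nn.conj_mem v hv g⁻¹
        simpa using this
      have h2 := hF.st _ h1
      have h3 : Cj g (Cj (g⁻¹ * v * g) S) = Cj g S := by rw [h2]
      rw [FCM_Cj_mul] at h3 ⊢
      have h4 : g * (g⁻¹ * v * g) = v * g := by group
      rwa [h4] at h3
    · intro g'
      exact ⟨g' * g, FCM_Cj_mul g' g S⟩
    · intro x hx hc
      exact FCM_center (hNS _ hK') x hx hc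
  · intro x hx
    have h1 : N ≤ Subgroup.centralizer ({x} : Set G) := by
      refine hF.gen _ ?_
      intro g y hy
      rw [Subgroup.mem_centralizer_singleton_iff]
      exact hx _ ⟨g, rfl⟩ y hy
    intro y hy
    exact Subgroup.mem_centralizer_singleton_iff.1 (h1 hy)

end RK
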