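import Pool.Agent.helper70.RK.BNO
import Pool.Agent.helper70.RK.FCM
set_option autoImplicit false
namespace RK
open QS (Lef EAb)
open LEQ (Stb Nz XS Ls Mb FS mem_FS)

theorem BY3 (hFCM : FCM_stmt) : BY3_stmt := by
  intro G _ _ p hp N S Y D hB hDY hcD e hne
  have hle : Cj e S ≤ Y := by
    intro y hy
    rw [hB.ey, Subgroup.mem_centralizer_iff]
    intro x hx
    exact hB.fm.cm e hne x hx y hy
  have hDe : D ≤ Cj e Y := by
    have h1 : Cj e Y = Subgroup.centralizer (Cj e S : Set G) := by rw [hB.ey, BNO_cen]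
    rw [h1, hB.ed]
    exact Subgroup.centralizer_le hle
  have hcomm : ∀ x ∈ D, ∀ y ∈ Cj e D, x * y = y * x := by
    intro x hx y hy
    have h1 : Cj e D = Subgroup.centralizer (Cj e Y : Set G) := by rw [hB.ed, BNO_cen]
    rw [h1, Subgroup.mem_centralizer_iff] at hy
    exact hy x (hDe hx)
  refine ⟨hDe, hcomm, ?_⟩
  rw [Subgroup.eq_bot_iff_forall]
  intro z hz
  have hzY : z ∈ Y := by
    rw [← hcD, Subgroup.mem_centralizer_iff]
    intro x hx
    exact hcomm x hx z hz.2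
  have : z ∈ D ⊓ Y := ⟨hz.1, hzY⟩
  rwa [hDY, Subgroup.mem_bot] at this

end RK
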