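import Pool.Agent.helper70.RK.Spec
import Pool.Agent.helper70.RK.AFI
set_option autoImplicit false
namespace RK
open QS (Lef EAb)
open LEQ (Stb Nz XS Ls Mb FS mem_FS)

theorem CVM_pow {G : Type} [Group G] {x y c : G} (h : x * y = c * y * x) (hc : c * x = x * c) (n : ℕ) :
    x ^ n * y = c ^ n * y * x ^ n := by
  induction n with
  | zero => simp
  | succ n ih =>
    have h1 : x * c ^ n = c ^ n * x := (Commute.pow_left (show Commute c x from hc) n).eq.symm
    calc x ^ (n + 1) * y = x * (x ^ n * y) := by rw [pow_succ', mul_assoc]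
      _ = x * (c ^ n * y * x ^ n) := by rw [ih]
      _ = x * c ^ n * y * x ^ n := by simp only [mul_assoc]
      _ = c ^ n * (x * y) * x ^ n := by rw [h1]; simp only [mul_assoc]
      _ = c ^ n * (c * y * x) * x ^ n := by rw [h]
      _ = c ^ (n + 1) * y * x ^ (n + 1) := by rw [pow_succ, pow_succ']; simp only [mul_assoc]

theorem CVM : CVM_stmt := by
  intro G _ _ p hp hO V M hMV
  -- two elements of `T` commute
  have hcomm : ∀ x ∈ M, x ^ p = 1 → Com V x → ∀ y ∈ M, y ^ p = 1 → Com V y → x * y = y * x := by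
    intro x hx hxp hxV y hy hyp hyV
    have hc := hMV.co x hx y hy
    set c := x * y * x⁻¹ * y⁻¹ with hcdef
    have h1 : x * y = c * y * x := by rw [hcdef]; group
    have h2 : c * x = x * c := hxV c hc
    have h3 := CVM_pow h1 h2 p
    rw [hxp, one_mul, mul_one] at h3
    have h4 : c ^ p = 1 := by
      have : c ^ p * y = 1 * y := by rw [one_mul]; exact h3.symm
      exact mul_right_cancel this
    have h5 : c = 1 := AFI_triv hp hMV.vp hc h4
    rw [h1, h5, one_mul]
  let T : Subgroup G :=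
    { carrier := {x | x ∈ M ∧ x ^ p = 1 ∧ Com V x}
      one_mem' := ⟨M.one_mem, one_pow p, fun y _ => by rw [mul_one, one_mul]⟩
      mul_mem' := by
        rintro x y ⟨hx, hxp, hxV⟩ ⟨hy, hyp, hyV⟩
        refine ⟨M.mul_mem hx hy, ?_, ?_⟩
        · rw [(show Commute x y from hcomm x hx hxp hxV y hy hyp hyV).mul_pow, hxp, hyp, one_mul]
        · intro v hv
          rw [← mul_assoc, hxV v hv, mul_assoc, hyV v hv, mul_assoc]
      inv_mem' := by
        rintro x ⟨hx, hxp, hxV⟩
        refine ⟨M.inv_mem hx, by rw [inv_pow, hxp, inv_one], ?_⟩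
        intro v hv
        exact ((show Commute v x from hxV v hv).inv_right).eq }
  have hTn : T.Normal := by
    refine ⟨?_⟩
    rintro x ⟨hx, hxp, hxV⟩ g
    refine ⟨hMV.mn.conj_mem x hx g, ?_, ?_⟩
    · rw [conj_pow, hxp]; group
    · intro v hv
      have h1 : g⁻¹ * v * g ∈ V := by
        have := hMV.vn.conj_mem v hv g⁻¹
        simpa using this
      have h2 := hxV _ h1
      have h3 : g * (g⁻¹ * v * g * x) * g⁻¹ = g * (x * (g⁻¹ * v * g)) * g⁻¹ := by rw [h2]
      simpa [mul_assoc] using h3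
  have hTp : IsPGroup p T := by
    rintro ⟨x, hx⟩
    refine ⟨1, ?_⟩
    apply Subtype.ext
    rw [pow_one]
    exact hx.2.1
  have hT := hO T hTn hTp
  intro x hx hxp hxV
  have : x ∈ T := ⟨hx, hxp, hxV⟩
  rwa [hT, Subgroup.mem_bot] at this

end RK
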