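import Pool.Agent.helper70.RK.Spec
set_option autoImplicit false
namespace RK
open QS (Lef EAb)
open LEQ (Stb Nz XS Ls Mb FS mem_FS)

/-- the conjugation action of `E` on `X` -/
def FXP_act {G : Type} [Group G] {E X : Subgroup G} (h : Nz E X) : MulAction E X where
  smul e x := ⟨e * x * (e : G)⁻¹, (h e e.2 x).1 x.2⟩
  one_smul x := by
    apply Subtype.ext
    change (1 : G) * x * (1 : G)⁻¹ = x
    group
  mul_smul a b x := by
    apply Subtype.ext
    change (a : G) * b * x * ((a : G) * b)⁻¹ = a * (b * x * (b : G)⁻¹) * (a : G)⁻¹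
    group

theorem FXP : FXP_stmt := by
  intro G _ _ p hp E X hE hN hpX
  have := Fact.mk hp
  letI := FXP_act hN
  -- the fixed points form the subgroup `C`
  let C : Subgroup G := X ⊓ Subgroup.centralizer (E : Set G)
  have hequiv : Nat.card (MulAction.fixedPoints E X) = Nat.card C := by
    refine Nat.card_congr ⟨fun x => ⟨x.1.1, x.1.2, ?_⟩, fun y => ⟨⟨y.1, y.2.1⟩, ?_⟩, fun x => rfl, fun y => rfl⟩
    · intro e he
      have h1 : (⟨e, he⟩ : E) • (x.1 : X) = x.1 := x.2 ⟨e, he⟩
      have h2 : e * (x.1.1 : G) * e⁻¹ = x.1.1 := congrArg Subtype.val h1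
      exact mul_inv_eq_iff_eq_mul.1 h2
    · intro e
      apply Subtype.ext
      change (e : G) * y.1 * (e : G)⁻¹ = y.1
      rw [mul_inv_eq_iff_eq_mul]
      exact y.2.2 e e.2
  have hdvd : p ∣ Nat.card C := by
    rw [← hequiv]
    have h1 := hE.card_modEq_card_fixedPoints (α := X)
    exact (Nat.modEq_zero_iff_dvd.1 (h1.symm.trans hpX.modEq_zero_nat))
  obtain ⟨z, hz⟩ := exists_prime_orderOf_dvd_card' p hdvd
  have hzp : (z : G) ^ p = 1 := by
    have h1 : z ^ p = 1 := by rw [← hz]; exact pow_orderOf_eq_one z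
    exact congrArg Subtype.val h1
  refine ⟨z, z.2.1, ?_, hzp, fun e he => z.2.2 e he⟩
  intro h
  have h1 : z = 1 := Subtype.ext h
  rw [h1, orderOf_one] at hz
  exact hp.one_lt.ne hz

end RK
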