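import Pool.Agent.helper70.RK.FCM
set_option autoImplicit false
namespace RK
open QS (Lef EAb)
open LEQ (Stb Nz XS Ls Mb FS mem_FS)

/-- conjugation by `x` on `K` -/
def GDE_aut {G : Type} [Group G] (x : G) (K : Subgroup G) (h : ∀ y, y ∈ K ↔ x * y * x⁻¹ ∈ K) : MulAut K where
  toFun y := ⟨x * y * x⁻¹, (h y).1 y.2⟩
  invFun y := ⟨x⁻¹ * y * x, by
    rw [h]
    have : x * (x⁻¹ * (y : G) * x) * x⁻¹ = y := by group
    rw [this]; exact y.2⟩
  left_inv y := by
    apply Subtype.ext
    change x⁻¹ * (x * (y : G) * x⁻¹) * x = y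
    group
  right_inv y := by
    apply Subtype.ext
    change x * (x⁻¹ * (y : G) * x) * x⁻¹ = y
    group
  map_mul' y z := by
    apply Subtype.ext
    change x * ((y : G) * z) * x⁻¹ = x * y * x⁻¹ * (x * z * x⁻¹)
    group

theorem GDE_pow {G : Type} [Group G] (x : G) (K : Subgroup G) (h : ∀ y, y ∈ K ↔ x * y * x⁻¹ ∈ K) (n : ℕ)
    (y : K) : (((GDE_aut x K h) ^ n) y : G) = x ^ n * y * (x ^ n)⁻¹ := by
  induction n with
  | zero => simp
  | succ n ih =>
    rw [pow_succ', MulAut.mul_apply]
    change x * (((GDE_aut x K h) ^ n) y : G) * x⁻¹ = _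
    rw [ih, pow_succ']
    group

theorem GDE : GDE_stmt := by
  intro G _ _ p hp hB V K hV hpV hKV hK
  have hker : ¬ p ∣ Nat.card (MonoidHom.id G).ker := by
    have : (MonoidHom.id G).ker = ⊥ := MonoidHom.ker_id
    rw [this, Subgroup.card_bot]
    exact hp.one_lt.ne' ∘ Nat.dvd_one.1
  obtain ⟨g, hg⟩ := hB G (MonoidHom.id G) Function.surjective_id hker V K hV hpV hKV hK
  -- it is enough to have an element `a ≠ 1` fixed by no automorphism of order `p`
  have key : ∀ a : K, a ≠ 1 → (∀ α : MulAut K, α ^ p = 1 → α a = a → α = 1) → ∃ a : G, Gd p K a := by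
    intro a ha h
    refine ⟨a, a.2, fun h1 => ha (Subtype.ext h1), ?_⟩
    intro x hxK hxp hxa
    have hst : ∀ y, y ∈ K ↔ x * y * x⁻¹ ∈ K := by
      intro y
      constructor
      · intro hy
        have := FCM_conj_mem (e := x) hy
        rwa [hxK] at this
      · intro hy
        rw [← hxK] at hy
        have := mem_Cj.1 hy
        simpa [mul_assoc] using this
    have h1 : (GDE_aut x K hst) ^ p = 1 := by
      ext y
      rw [GDE_pow, MulAut.one_apply]
      have := hxp y y.2
      rw [← this]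
      group
    have h2 : (GDE_aut x K hst) a = a := by
      apply Subtype.ext
      change x * (a : G) * x⁻¹ = a
      rw [hxa]
      group
    have h3 := h _ h1 h2
    intro y hy
    have h4 : ((GDE_aut x K hst) ⟨y, hy⟩ : G) = y := by rw [h3]; rfl
    have h5 : x * y * x⁻¹ = y := h4
    exact (mul_inv_eq_iff_eq_mul.1 h5).symm
  by_cases hg1 : g = 1
  · have hnt : Nontrivial K := hK.1.toNontrivial
    obtain ⟨a, ha⟩ := exists_ne (1 : K)
    refine key a ha ?_
    intro α hα _
    exact hg α hα (by rw [hg1, map_one])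
  · exact key g hg1 hg

end RK
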