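import Pool.Agent.helper70.RK.Spec

/-! Row NAB of project rk (MP_e82547_al) -/

set_option autoImplicit false

namespace RK

open QS (Lef EAb)
open LEQ (Stb Nz XS Ls Mb FS mem_FS)

/-- the elements of an abelian subgroup whose order is a power of `p` -/
def NAB_P {G : Type} [Group G] (p : ℕ) (A : Subgroup G) (hc : ∀ x ∈ A, ∀ y ∈ A, x * y = y * x) :
    Subgroup G where
  carrier := {x | x ∈ A ∧ ∃ k : ℕ, x ^ (p ^ k) = 1}
  one_mem' := ⟨A.one_mem, 0, by simp⟩
  mul_mem' := by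
    rintro x y ⟨hx, k, hk⟩ ⟨hy, l, hl⟩
    refine ⟨A.mul_mem hx hy, k + l, ?_⟩
    have hxy : Commute x y := hc x hx y hy
    have h1 : x ^ (p ^ (k + l)) = 1 := by rw [pow_add, pow_mul, hk, one_pow]
    have h2 : y ^ (p ^ (k + l)) = 1 := by rw [add_comm k l, pow_add, pow_mul, hl, one_pow]
    rw [hxy.mul_pow, h1, h2, one_mul]
  inv_mem' := by
    rintro x ⟨hx, k, hk⟩
    exact ⟨A.inv_mem hx, k, by rw [inv_pow, hk, inv_one]⟩

theorem NAB : NAB_stmt := by
  intro G _ _ p hp hO hO' A hA hc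
  have hf : Fact p.Prime := ⟨hp⟩
  have hP : NAB_P p A hc = ⊥ := by
    apply hO
    · constructor
      rintro x ⟨hx, k, hk⟩ g
      refine ⟨hA.conj_mem x hx g, k, ?_⟩
      rw [conj_pow, hk, mul_one, mul_inv_cancel]
    · rintro ⟨x, hx, k, hk⟩
      exact ⟨k, Subtype.ext hk⟩
  apply hO' A hA
  intro hd
  obtain ⟨x, hx⟩ := exists_prime_orderOf_dvd_card' p hd
  have h1 : (x : G) ∈ NAB_P p A hc := by
    refine ⟨x.2, 1, ?_⟩
    rw [pow_one, ← hx]
    have h3 := congrArg (fun z : A => (z : G)) (pow_orderOf_eq_one x)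
    exact h3
  rw [hP, Subgroup.mem_bot] at h1
  have h4 : x = 1 := Subtype.ext h1
  rw [h4, orderOf_one] at hx
  exact hp.one_lt.ne hx

end RK
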