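import Pool.Agent.helper70.RK.FCM
set_option autoImplicit false
namespace RK
open QS (Lef EAb)
open LEQ (Stb Nz XS Ls Mb FS mem_FS)

/-- A property of subgroups which is invariant under conjugation and under the join of two subgroups normalised by `N`:
the largest such subgroup of `N` normalised by `N` is normal in `G` and contains all others. -/
theorem OPN_gen {G : Type} [Group G] [Finite G] (N : Subgroup G) (hN : N.Normal) (Q : Subgroup G → Prop)
    (hQ0 : Q ⊥) (hQc : ∀ (g : G) (P : Subgroup G), Q P → Q (Cj g P))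
    (hQs : ∀ P T : Subgroup G, P ≤ N → T ≤ N → (∀ h ∈ N, ∀ x ∈ P, h * x * h⁻¹ ∈ P) →
      (∀ h ∈ N, ∀ x ∈ T, h * x * h⁻¹ ∈ T) → Q P → Q T → Q (P ⊔ T))
    (hfin : ∀ T : Subgroup G, T.Normal → Q T → T = ⊥) (P : Subgroup G) (hPN : P ≤ N)
    (hPn : ∀ h ∈ N, ∀ x ∈ P, h * x * h⁻¹ ∈ P) (hP : Q P) : P = ⊥ := by
  classical
  let A : Set (Subgroup G) := {T | T ≤ N ∧ (∀ h ∈ N, ∀ x ∈ T, h * x * h⁻¹ ∈ T) ∧ Q T}
  have hAne : A.Nonempty := ⟨⊥, bot_le, fun h _ x hx => by
    rw [Subgroup.mem_bot] at hx ⊢; rw [hx]; group, hQ0⟩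
  obtain ⟨T, hT, hmax⟩ := Set.Finite.exists_maximalFor (fun T : Subgroup G => Nat.card T) A (Set.toFinite A) hAne
  have hle_card : ∀ S ∈ A, Nat.card S ≤ Nat.card T := by
    intro S hS
    rcases le_total (Nat.card S) (Nat.card T) with h | h
    · exact h
    · exact hmax hS h
  have hsup : ∀ S ∈ A, S ⊔ T ∈ A := by
    rintro S ⟨hS1, hS2, hS3⟩
    obtain ⟨hT1, hT2, hT3⟩ := hT
    refine ⟨sup_le hS1 hT1, ?_, hQs S T hS1 hT1 hS2 hT2 hS3 hT3⟩
    intro h hh x hx
    have hle : S ⊔ T ≤ (S ⊔ T).comap (MulAut.conj h).toMonoidHom := by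
      refine sup_le ?_ ?_
      · intro y hy
        rw [Subgroup.mem_comap]
        exact Subgroup.mem_sup_left (hS2 h hh y hy)
      · intro y hy
        rw [Subgroup.mem_comap]
        exact Subgroup.mem_sup_right (hT2 h hh y hy)
    exact hle hx
  have hcontain : ∀ S ∈ A, S ≤ T := by
    intro S hS
    have h1 := hle_card _ (hsup S hS)
    have h2 : T ≤ S ⊔ T := le_sup_right
    have h3 : T = S ⊔ T := Subgroup.eq_of_le_of_card_ge h2 h1
    rw [h3]
    exact le_sup_left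
  have hTn : T.Normal := by
    refine ⟨fun x hx g => ?_⟩
    have hcj : Cj g T ∈ A := by
      obtain ⟨hT1, hT2, hT3⟩ := hT
      refine ⟨?_, ?_, hQc g T hT3⟩
      · intro y hy
        have h1 := hT1 (mem_Cj.1 hy)
        have h2 := hN.conj_mem _ h1 g
        simpa [mul_assoc] using h2
      · intro h hh y hy
        rw [mem_Cj] at hy ⊢
        have h1 : g⁻¹ * h * g ∈ N := by
          have := hN.conj_mem h hh g⁻¹
          simpa using this
        have h2 := hT2 _ h1 _ hy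
        have h3 : g⁻¹ * (h * y * h⁻¹) * g = g⁻¹ * h * g * (g⁻¹ * y * g) * (g⁻¹ * h * g)⁻¹ := by group
        rw [h3]
        exact h2
    exact hcontain _ hcj (FCM_conj_mem hx)
  have hTb := hfin T hTn hT.2.2
  have := hcontain P ⟨hPN, hPn, hP⟩
  rw [hTb, le_bot_iff] at this
  exact this

theorem OPN_norm {G : Type} [Group G] {N P T : Subgroup G} (hPN : P ≤ N)
    (hTn : ∀ h ∈ N, ∀ x ∈ T, h * x * h⁻¹ ∈ T) : P ≤ Subgroup.normalizer (T : Set G) := by
  intro x hx
  rw [Subgroup.mem_normalizer_iff]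
  intro y
  constructor
  · intro hy
    exact hTn x (hPN hx) y hy
  · intro hy
    have := hTn x⁻¹ (N.inv_mem (hPN hx)) _ hy
    simpa [mul_assoc] using this

theorem OPN : OPN_stmt := by
  intro G _ _ p hp hO N hN P hPN hPn hP
  refine OPN_gen N hN (fun T => IsPGroup p T) IsPGroup.of_bot ?_ ?_ hO P hPN hPn hP
  · intro g P hP
    exact hP.of_equiv (FCM_iso g P)
  · intro P T hPN hTN _ hTn hP hT
    exact hP.to_sup_of_normal_right' hT (OPN_norm hPN hTn)

end RK
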