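import Pool.Agent.helper70.RK.OPN
set_option autoImplicit false
namespace RK
open QS (Lef EAb)
open LEQ (Stb Nz XS Ls Mb FS mem_FS)
open scoped Pointwise

theorem OQN_sup {G : Type} [Group G] [Finite G] {p : ℕ} (hp : p.Prime) {P T : Subgroup G}
    (hPT : P ≤ Subgroup.normalizer (T : Set G)) (hP : ¬ p ∣ Nat.card P) (hT : ¬ p ∣ Nat.card T) :
    ¬ p ∣ Nat.card (P ⊔ T : Subgroup G) := by
  have := Fact.mk hp
  intro hdvd
  obtain ⟨z, hz⟩ := exists_prime_orderOf_dvd_card' p hdvd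
  have hzz : (z : G) ∈ (P : Set G) * (T : Set G) := by
    rw [← Subgroup.coe_mul_of_left_le_normalizer_right P T hPT]
    exact z.2
  obtain ⟨a, ha, b, hb, hab⟩ := Set.mem_mul.1 hzz
  -- `z ^ |P|` is in `T`
  have key : ∀ n : ℕ, ∃ t ∈ T, (a * b) ^ n = a ^ n * t := by
    intro n
    induction n with
    | zero => exact ⟨1, T.one_mem, by simp⟩
    | succ n ih =>
      obtain ⟨t, ht, h⟩ := ih
      refine ⟨a⁻¹ * t * a * b, T.mul_mem ?_ hb, ?_⟩
      · have h1 := hPT (P.inv_mem ha)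
        rw [Subgroup.mem_normalizer_iff] at h1
        have := (h1 t).1 ht
        simpa using this
      · rw [pow_succ, h, pow_succ]
        group
  obtain ⟨t, ht, h⟩ := key (Nat.card P)
  have haP : a ^ Nat.card P = 1 := congrArg Subtype.val (pow_card_eq_one' (x := (⟨a, ha⟩ : P)))
  rw [haP, one_mul, hab] at h
  have htT : t ^ Nat.card T = 1 := congrArg Subtype.val (pow_card_eq_one' (x := (⟨t, ht⟩ : T)))
  have h2 : (z : G) ^ (Nat.card P * Nat.card T) = 1 := by rw [pow_mul, h, htT]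
  have h3 : orderOf (z : G) ∣ Nat.card P * Nat.card T := orderOf_dvd_of_pow_eq_one h2
  rw [Subgroup.orderOf_coe, hz] at h3
  rcases (Nat.Prime.dvd_mul hp).1 h3 with h4 | h4
  · exact hP h4
  · exact hT h4

theorem OQN : OQN_stmt := by
  intro G _ _ p hp hO N hN P hPN hPn hP
  refine OPN_gen N hN (fun T => ¬ p ∣ Nat.card T) ?_ ?_ ?_ hO P hPN hPn hP
  · rw [Subgroup.card_bot]
    exact hp.one_lt.ne' ∘ Nat.dvd_one.1
  · intro g P hP
    rwa [Nat.card_congr (FCM_iso g P).symm.toEquiv]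
  · intro P T hPN hTN _ hTn hP hT
    exact OQN_sup hp (OPN_norm hPN hTn) hP hT

end RK
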