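import Pool.Agent.helper70.RK.FCM
set_option autoImplicit false
namespace RK
open QS (Lef EAb)
open LEQ (Stb Nz XS Ls Mb FS mem_FS)

theorem PRD (hFCM : FCM_stmt) : PRD_stmt := by
  classical
  intro G _ _ N S hF g hg I
  obtain ⟨f1, f2, -⟩ := hFCM G N S hF
  induction I using Finset.induction_on with
  | empty =>
    intro _
    refine ⟨1, N.one_mem, by simp, fun K _ _ y _ => by rw [mul_one, one_mul]⟩
  | insert K₀ I hK₀ ih =>
    intro hI
    obtain ⟨u, huN, hu1, hu2⟩ := ih (fun K hK => hI K (Finset.mem_insert_of_mem hK))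
    have hC₀ : IsC S K₀ := hI K₀ (Finset.mem_insert_self _ _)
    have hgK₀ := hg K₀ hC₀
    refine ⟨g K₀ * u, N.mul_mem ((f2 K₀ hC₀).2.1 hgK₀) huN, ?_, ?_⟩
    · intro K hK
      rcases Finset.mem_insert.1 hK with rfl | hK'
      · exact ⟨u, hu2 K hC₀ hK₀, rfl⟩
      · have hC : IsC S K := hI K hK
        obtain ⟨v, hv, rfl⟩ := hu1 K hK'
        have hne : K ≠ K₀ := by
          rintro rfl
          exact hK₀ hK'
        have hcm := (f1 K K₀ hC hC₀ hne).1
        refine ⟨g K₀ * v, ?_, ?_⟩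
        · intro y hy
          rw [← mul_assoc, hcm y hy _ hgK₀, mul_assoc, hv y hy, mul_assoc]
        · rw [← mul_assoc, ← hcm _ (hg K hC) _ hgK₀, mul_assoc]
    · intro K hC hK y hy
      have hne : K ≠ K₀ := by
        rintro rfl
        exact hK (Finset.mem_insert_self _ _)
      have hKI : K ∉ I := fun h => hK (Finset.mem_insert_of_mem h)
      have hcm := (f1 K K₀ hC hC₀ hne).1
      rw [← mul_assoc, hcm y hy _ hgK₀, mul_assoc, hu2 K hC hKI y hy, mul_assoc]

end RK
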