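import Pool.Agent.helper70.RK.FCM
set_option autoImplicit false
namespace RK
open QS (Lef EAb)
open LEQ (Stb Nz XS Ls Mb FS mem_FS)

theorem PRK (hFCM : FCM_stmt) : PRK_stmt := by
  intro G _ _ N S hF g hg I hI u hu1 hu2 x hx K hK
  obtain ⟨f1, f2, -⟩ := hFCM G N S hF
  have hC := hI K hK
  obtain ⟨hNS, hKN, hKv, hKC, hKcen, -⟩ := f2 K hC
  obtain ⟨v, hv, huv⟩ := hu1 K hK
  constructor
  · by_contra hnot
    have h1 := hu2 (Cj x K) (hKC x) hnot
    have h2 : Com K u := by
      intro y hy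
      have h3 := h1 _ (FCM_conj_mem (e := x) hy)
      have h4 : x⁻¹ * (x * y * x⁻¹ * u) * x = x⁻¹ * (u * (x * y * x⁻¹)) * x := by rw [h3]
      have h5 : x⁻¹ * u * x = u := by rw [mul_assoc, ← hx]; group
      have h6 : x⁻¹ * (x * y * x⁻¹ * u) * x = y * (x⁻¹ * u * x) := by group
      have h7 : x⁻¹ * (u * (x * y * x⁻¹)) * x = x⁻¹ * u * x * y := by group
      rw [h6, h7, h5] at h4
      exact h4
    have h3 : ∀ y ∈ K, g K * y = y * g K := by
      intro y hy
      have h4 := h2 y hy
      rw [huv] at h4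
      have h5 := hv y hy
      have h6 : y * g K * v = g K * y * v := by
        rw [mul_assoc, h4, mul_assoc, ← h5, mul_assoc]
      exact (mul_right_cancel h6).symm
    exact (hg K hC).2 (hKcen _ (hg K hC).1 h3)
  · intro hxK
    have hxv : Com K (x * v * x⁻¹) := by
      intro y hy
      rw [← hxK] at hy
      have h1 := hv _ (mem_Cj.1 hy)
      have h2 : x * (x⁻¹ * y * x * v) * x⁻¹ = x * (v * (x⁻¹ * y * x)) * x⁻¹ := by rw [h1]
      simpa [mul_assoc] using h2
    have hw : x * g K * x⁻¹ ∈ K := by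
      have := FCM_conj_mem (e := x) (hg K hC).1
      rwa [hxK] at this
    have h1 : g K * v = x * g K * x⁻¹ * (x * v * x⁻¹) := by
      have h2 : x * u * x⁻¹ = u := by rw [hx]; group
      rw [← huv]
      calc u = x * u * x⁻¹ := h2.symm
        _ = x * (g K * v) * x⁻¹ := by rw [← huv]
        _ = x * g K * x⁻¹ * (x * v * x⁻¹) := by group
    set w := (g K)⁻¹ * (x * g K * x⁻¹) with hwdef
    have h2 : v = w * (x * v * x⁻¹) := by
      rw [hwdef, mul_assoc, ← h1]
      group
    have h3 : w = v * (x * v * x⁻¹)⁻¹ := eq_mul_inv_of_mul_eq h2.symm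
    have hwK : w ∈ K := K.mul_mem (K.inv_mem (hg K hC).1) hw
    have h4 : ∀ y ∈ K, w * y = y * w := by
      intro y hy
      have a1 : Commute y v := hv y hy
      have a2 : Commute y (x * v * x⁻¹) := hxv y hy
      rw [h3]
      exact (a1.mul_right a2.inv_right).symm
    have h5 := hKcen w hwK h4
    rw [hwdef, inv_mul_eq_one] at h5
    exact (eq_mul_inv_iff_mul_eq.1 h5).symm

end RK
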