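import Pool.Agent.helper70.RK.Spec
set_option autoImplicit false
namespace RK
open QS (Lef EAb)
open LEQ (Stb Nz XS Ls Mb FS mem_FS)

theorem RES_Cj_eq_of_all {G : Type} [Group G] {S : Subgroup G} (h : ∀ g : G, Cj g S = S) : S.Normal := by
  refine ⟨fun n hn g => ?_⟩
  have h1 : g * n * g⁻¹ ∈ Cj g S := mem_Cj.2 (by simpa [mul_assoc] using hn)
  rwa [h g] at h1

theorem RES_minNormal {G : Type} [Group G] [Finite G] (Q : Subgroup G → Prop)
    (hex : ∃ N : Subgroup G, N.Normal ∧ N ≠ ⊥ ∧ Q N)
    (hQ : ∀ M N : Subgroup G, M ≤ N → Q N → Q M) :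
    ∃ N : Subgroup G, N.Normal ∧ N ≠ ⊥ ∧ Q N ∧ ∀ M : Subgroup G, M.Normal → M ≤ N → M = ⊥ ∨ M = N := by
  classical
  obtain ⟨N, hN, hmin⟩ := WellFounded.has_min (measure (fun N : Subgroup G => Nat.card N)).wf
    {N : Subgroup G | N.Normal ∧ N ≠ ⊥ ∧ Q N} hex
  refine ⟨N, hN.1, hN.2.1, hN.2.2, fun M hM hMN => ?_⟩
  by_cases hb : M = ⊥
  · exact Or.inl hb
  · right
    by_contra hne
    have hlt : Nat.card M < Nat.card N := by
      have h1 : M < N := lt_of_le_of_ne hMN hne
      have h2 := Set.ncard_lt_ncard (SetLike.coe_ssubset_coe.2 h1) (Set.toFinite _)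
      rwa [← Nat.card_coe_set_eq, ← Nat.card_coe_set_eq] at h2
    exact hmin M ⟨hM, hb, hQ M N hMN hN.2.2⟩ hlt

theorem RES (hR2 : R2_stmt) (hOQN : OQN_stmt) (hNAB : NAB_stmt) (hMNS : MNS_stmt) (hFCM : FCM_stmt)
    (hRKQ : RKQ_stmt) (hHYQ : HYQ_stmt) (hQLF : QLF_stmt) (hAST : AST_stmt) (hA1U : A1U_stmt)
    (hA1R : A1R_stmt) (hAFI : AFI_stmt) (hA2F : A2F_stmt) (hBFI : BFI_stmt) : RES_stmt := by
  have main : ∀ n : ℕ, ∀ (G : Type) [Group G] [Finite G] (p : ℕ), Nat.card G = n → p.Prime →
      Op1 p G → Rk p 3 G → HypA p G → HypB p G → Q1 p G := by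
    intro n
    induction n using Nat.strong_induction_on with
    | _ n ih =>
      intro G _ _ p hcard hp hO hR hA hB
      by_cases htr : Rk p 2 G
      · exact ⟨1, hR2 G p hp htr hO⟩
      by_cases hq : Oq1 p G
      · -- case B
        have hnt : (⊤ : Subgroup G) ≠ ⊥ := by
          intro h
          apply htr
          intro E _
          have hE : E = ⊥ := eq_bot_iff.2 (h ▸ le_top)
          rw [hE, Subgroup.card_bot]
          exact Nat.one_le_pow _ _ hp.pos
        obtain ⟨N, hN, hNb, -, hmin⟩ := RES_minNormal (fun _ : Subgroup G => True)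
          ⟨⊤, inferInstance, hnt, trivial⟩ (fun _ _ _ _ => trivial)
        have hnc : ∃ x ∈ N, ∃ y ∈ N, x * y ≠ y * x := by
          by_contra hcon
          push Not at hcon
          exact hNb (hNAB G p hp hO hq N hN hcon)
        obtain ⟨S, hS⟩ := hMNS G N hN hNb hmin hnc
        obtain ⟨f1, f2, f3⟩ := hFCM G N S hS
        have hSb : S ≠ ⊥ := by
          intro h
          obtain ⟨x, hx, y, hy, hxy⟩ := hS.ns.2
          rw [h, Subgroup.mem_bot] at hx hy
          rw [hx, hy] at hxy
          exact hxy rfl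
        have hCjn : ∀ v ∈ N, ∀ x ∈ S, v * x * v⁻¹ ∈ S := by
          intro v hv x hx
          have : v * x * v⁻¹ ∈ Cj v S := mem_Cj.2 (by simpa [mul_assoc] using hx)
          rwa [hS.st v hv] at this
        have hpS : p ∣ Nat.card S := by
          by_contra hcon
          exact hSb (hOQN G p hp hq N hN S hS.le hCjn hcon)
        by_cases hY : Subgroup.centralizer (S : Set G) = ⊥
        · have hall : ∀ g : G, Cj g S = S := by
            intro g
            by_contra hne
            have hcm := hS.cm g hne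
            have hle : Cj g S ≤ Subgroup.centralizer (S : Set G) := by
              intro y hy
              rw [Subgroup.mem_centralizer_iff]
              intro x hx
              exact hcm x hx y hy
            rw [hY, le_bot_iff] at hle
            apply hSb
            rw [Subgroup.eq_bot_iff_forall]
            intro x hx
            have h1 : g * x * g⁻¹ ∈ Cj g S := mem_Cj.2 (by simpa [mul_assoc] using hx)
            rw [hle, Subgroup.mem_bot] at h1
            have h2 : g * x = g := by
              rw [mul_inv_eq_one] at h1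
              exact h1
            exact mul_eq_left.1 h2
          have hker : ¬ p ∣ Nat.card (MonoidHom.id G).ker := by
            have : (MonoidHom.id G).ker = ⊥ := MonoidHom.ker_id
            rw [this, Subgroup.card_bot]
            exact hp.one_lt.ne' ∘ Nat.dvd_one.1
          exact hA G (MonoidHom.id G) Function.surjective_id hker S (RES_Cj_eq_of_all hall) hS.ns hpS hY
        · exact hBFI G p hp hR N S _ _ ⟨hO, hq, hS, rfl, rfl, hY⟩
      · -- case A
        have hex : ∃ N : Subgroup G, N.Normal ∧ N ≠ ⊥ ∧ ¬ p ∣ Nat.card N := by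
          unfold Oq1 at hq
          push Not at hq
          obtain ⟨P, h1, h2, h3⟩ := hq
          exact ⟨P, h1, h3, h2⟩
        obtain ⟨V, hV, hVb, hVp, hmin⟩ := RES_minNormal (fun N : Subgroup G => ¬ p ∣ Nat.card N) hex
          (fun M N hMN hN h => hN (h.trans (Subgroup.card_dvd_of_le hMN)))
        have := hV
        by_cases hOV : Op1 p (G ⧸ V)
        · have hlt : Nat.card (G ⧸ V) < n := by
            have h1 : Nat.card G = Nat.card (G ⧸ V) * Nat.card V := Subgroup.card_eq_card_quotient_mul_card_subgroup V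
            have h2 : 1 < Nat.card V := by
              by_contra hcon
              have h3 : Nat.card V ≤ 1 := not_lt.1 hcon
              exact hVb (Subgroup.card_le_one_iff_eq_bot V |>.1 h3)
            have h4 : 0 < Nat.card (G ⧸ V) := Nat.card_pos
            rw [← hcard, h1]
            nlinarith
          have hq1 := ih _ hlt (G ⧸ V) p rfl hp hOV (hRKQ G p 3 hp hR V hVp)
            ((hHYQ G p hp V hVp).1 hA) ((hHYQ G p hp V hVp).2 hB)
          exact hQLF G p hp V hVp hq1
        · obtain ⟨M, hM⟩ := hAST G p hp V hVp hOV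
          by_cases hcomm : ∀ x ∈ V, ∀ y ∈ V, x * y = y * x
          · obtain ⟨u, hu, hreg⟩ := hA1U G p hp hO V M hM hcomm
            exact hAFI G p hp hR V M hM u hu hreg (hA1R G p hp hO V hV hVp hcomm u hu)
          · push Not at hcomm
            obtain ⟨S, hS⟩ := hMNS G V hV hVb hmin hcomm
            exact hA2F G p hp hO hR hB V M S hM hS
  intro G _ _ p hp hO hR hA hB
  exact main _ G p rfl hp hO hR hA hB

end RK
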