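import Pool.Agent.helper70.RK.Spec

/-! Row RKQ of project rk (MP_e82547_al) -/

set_option autoImplicit false

namespace RK

open QS (Lef EAb)
open LEQ (Stb Nz XS Ls Mb FS mem_FS)

theorem RKQ_one {G : Type} [Group G] [Finite G] {p n : ℕ} (hp : p.Prime) {V P : Subgroup G}
    (hV : ¬ p ∣ Nat.card V) (hP : Nat.card P = p ^ n) {c : G} (h1 : c ∈ V) (h2 : c ∈ P) : c = 1 := by
  have h3 : orderOf c ∣ Nat.card V := Subgroup.orderOf_dvd_natCard V h1
  have h4 : orderOf c ∣ Nat.card P := Subgroup.orderOf_dvd_natCard P h2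
  rw [hP] at h4
  have h5 : Nat.Coprime (p ^ n) (Nat.card V) :=
    Nat.Coprime.pow_left n ((Nat.Prime.coprime_iff_not_dvd hp).2 hV)
  have h6 : orderOf c ∣ 1 := by
    rw [← Nat.Coprime.gcd_eq_one h5]
    exact Nat.dvd_gcd h4 h3
  exact orderOf_eq_one_iff.1 (Nat.dvd_one.1 h6)

theorem RKQ : RKQ_stmt := by
  intro G _ _ p r hp hr V _ hV E hE
  haveI : Fact p.Prime := ⟨hp⟩
  have hpg : IsPGroup p E := by
    intro x
    refine ⟨1, ?_⟩
    rw [pow_one]
    exact Subtype.ext (hE.2 x x.2)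
  obtain ⟨n, hn⟩ := IsPGroup.iff_card.1 hpg
  have hM : Nat.card (E.comap (QuotientGroup.mk' V)) = Nat.card V * Nat.card E := by
    have h2 := Subgroup.card_mul_index (E.comap (QuotientGroup.mk' V))
    rw [Subgroup.index_comap_of_surjective _ (QuotientGroup.mk'_surjective V)] at h2
    have h3 := Subgroup.card_mul_index E
    have h4 := Subgroup.card_eq_card_quotient_mul_card_subgroup V
    have h5 : E.index ≠ 0 := Subgroup.index_ne_zero_of_finite
    apply Nat.eq_of_mul_eq_mul_right (Nat.pos_of_ne_zero h5)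
    rw [h2, h4, ← h3]
    ring
  obtain ⟨K, hK⟩ := Sylow.exists_subgroup_card_pow_prime
    (G := E.comap (QuotientGroup.mk' V)) p (n := n) (by rw [hM, hn]; exact Dvd.intro_left _ rfl)
  set P := K.map (E.comap (QuotientGroup.mk' V)).subtype with hPdef
  have hP : Nat.card P = p ^ n := by
    rw [hPdef, Subgroup.card_map_of_injective (Subgroup.subtype_injective _), hK]
  have hPM : ∀ x ∈ P, (QuotientGroup.mk' V) x ∈ E := by
    rintro x ⟨y, hy, rfl⟩
    exact y.2
  rw [hn, ← hP]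
  refine hr P ⟨?_, ?_⟩
  · intro x hx y hy
    have h1 : x * y * x⁻¹ * y⁻¹ ∈ V := by
      rw [← QuotientGroup.ker_mk' V, MonoidHom.mem_ker]
      simp only [map_mul, map_inv]
      rw [hE.1 _ (hPM x hx) _ (hPM y hy)]
      group
    have h2 := RKQ_one hp hV hP h1
      (mul_mem (mul_mem (mul_mem hx hy) (inv_mem hx)) (inv_mem hy))
    have h3 : x * y = (x * y * x⁻¹ * y⁻¹) * (y * x) := by group
    rw [h3, h2, one_mul]
  · intro x hx
    have h1 : x ^ p ∈ V := by
      rw [← QuotientGroup.ker_mk' V, MonoidHom.mem_ker, map_pow]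
      exact hE.2 _ (hPM x hx)
    exact RKQ_one hp hV hP h1 (pow_mem hx p)

end RK
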