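import Pool.Agent.helper70.RK.Spec
set_option autoImplicit false
namespace RK
open QS (Lef EAb)
open LEQ (Stb Nz XS Ls Mb FS mem_FS)

theorem TRR_pg {C : Type} [Group C] {p : ℕ} {E : Subgroup C} (h : EAb p E) : IsPGroup p E := by
  rintro ⟨x, hx⟩
  refine ⟨1, ?_⟩
  apply Subtype.ext
  rw [pow_one]
  exact h.2 x hx

theorem TRR_card {C : Type} [Group C] [Finite C] {p : ℕ} (hp : p.Prime) (hR : Rk p 2 C) {E : Subgroup C}
    (hE : EAb p E) (hb : E ≠ ⊥) : Nat.card E = p ∨ Nat.card E = p ^ 2 := by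
  have := Fact.mk hp
  obtain ⟨n, hn⟩ := IsPGroup.iff_card.1 (TRR_pg hE)
  have h1 := hR E hE
  rw [hn] at h1
  have h2 : n ≤ 2 := (Nat.pow_le_pow_iff_right hp.one_lt).1 h1
  have h3 : n ≠ 0 := by
    rintro rfl
    rw [pow_zero] at hn
    exact hb ((Subgroup.card_eq_one).1 hn)
  have h4 : n = 1 ∨ n = 2 := by omega
  rcases h4 with rfl | rfl
  · left; rw [hn, pow_one]
  · right; exact hn

theorem TRR_lt_card {C : Type} [Group C] [Finite C] {E F : Subgroup C} (h : E < F) : Nat.card E < Nat.card F := by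
  have h2 := Set.ncard_lt_ncard (SetLike.coe_ssubset_coe.2 h) (Set.toFinite _)
  rwa [← Nat.card_coe_set_eq, ← Nat.card_coe_set_eq] at h2

theorem TRR_nb {C : Type} [Group C] {p : ℕ} (hp : p.Prime) {F : Subgroup C} (h : Nat.card F = p) : F ≠ ⊥ := by
  rintro rfl
  rw [Subgroup.card_bot] at h
  exact hp.one_lt.ne h

theorem TRR_mono {C : Type} [Group C] {p : ℕ} {E F : Subgroup C} (h : EAb p E) (hF : F ≤ E) : EAb p F :=
  ⟨fun a ha b hb => h.1 a (hF ha) b (hF hb), fun a ha => h.2 a (hF ha)⟩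

/-- a vertex -/
def TRR_mk {C : Type} [Group C] {p : ℕ} (E : Subgroup C) (h : E ≠ ⊥) (h' : EAb p E) : Ver p C := ⟨E, h, h'⟩

/-- the edges as pairs -/
theorem TRR_edges {C : Type} [Group C] [Finite C] {p : ℕ} (hp : p.Prime) (hR : Rk p 2 C) :
    Nat.card (Gr p C).edgeSet =
      Nat.card (Σ E : {E : Subgroup C // EAb p E ∧ Nat.card E = p ^ 2}, {F : Subgroup C // F ≤ E.1 ∧ Nat.card F = p}) := by
  have hlt2 : p < p ^ 2 := by
    have := hp.one_lt
    nlinarith
  have hsub : ∀ (E : {E : Subgroup C // EAb p E ∧ Nat.card E = p ^ 2}) (F : {F : Subgroup C // F ≤ E.1 ∧ Nat.card F = p}),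
      F.1 < E.1 := by
    intro E F
    refine lt_of_le_of_ne F.2.1 ?_
    intro h
    have h1 := F.2.2
    rw [h, E.2.2] at h1
    omega
  have hEb : ∀ E : {E : Subgroup C // EAb p E ∧ Nat.card E = p ^ 2}, E.1 ≠ ⊥ := by
    intro E h
    have h1 := E.2.2
    rw [h, Subgroup.card_bot] at h1
    have := hp.one_lt
    nlinarith
  symm
  refine Nat.card_congr (Equiv.ofBijective (fun x => ⟨s(TRR_mk x.2.1 (TRR_nb hp x.2.2.2) (TRR_mono x.1.2.1 x.2.2.1),
      TRR_mk x.1.1 (hEb x.1) x.1.2.1), ?_⟩) ⟨?_, ?_⟩)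
  · rw [SimpleGraph.mem_edgeSet]
    exact Or.inl (hsub x.1 x.2)
  · rintro ⟨⟨E, hE⟩, ⟨F, hF⟩⟩ ⟨⟨E', hE'⟩, ⟨F', hF'⟩⟩ h
    have h1 := congrArg Subtype.val h
    simp only at h1
    rw [Sym2.eq_iff] at h1
    rcases h1 with ⟨h1, h2⟩ | ⟨h1, h2⟩
    · have e1 : F = F' := congrArg Subtype.val h1
      have e2 : E = E' := congrArg Subtype.val h2
      subst e1 e2
      rfl
    · exfalso
      have e1 : F = E' := congrArg Subtype.val h1
      have e2 := hF.2
      rw [e1, hE'.2] at e2
      omega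
  · rintro ⟨e, he⟩
    induction e using Sym2.ind with
    | _ a b =>
      rw [SimpleGraph.mem_edgeSet] at he
      -- orient the edge
      have key : ∀ a b : Ver p C, a.1 < b.1 → ∃ x : (Σ E : {E : Subgroup C // EAb p E ∧ Nat.card E = p ^ 2},
          {F : Subgroup C // F ≤ E.1 ∧ Nat.card F = p}), x.2.1 = a.1 ∧ x.1.1 = b.1 := by
        intro a b hab
        have h1 := TRR_lt_card hab
        have ha := TRR_card hp hR a.2.2 a.2.1
        have hb := TRR_card hp hR b.2.2 b.2.1
        have ha' : Nat.card a.1 = p := by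
          rcases ha with h | h
          · exact h
          · rcases hb with h' | h'
            · omega
            · omega
        have hb' : Nat.card b.1 = p ^ 2 := by
          rcases hb with h | h
          · omega
          · exact h
        exact ⟨⟨⟨b.1, b.2.2, hb'⟩, ⟨a.1, hab.le, ha'⟩⟩, rfl, rfl⟩
      rcases he with he | he
      · obtain ⟨x, hx1, hx2⟩ := key a b he
        refine ⟨x, ?_⟩
        apply Subtype.ext
        simp only
        rw [Sym2.eq_iff]
        exact Or.inl ⟨Subtype.ext hx1, Subtype.ext hx2⟩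
      · obtain ⟨x, hx1, hx2⟩ := key b a he
        refine ⟨x, ?_⟩
        apply Subtype.ext
        simp only
        rw [Sym2.eq_iff]
        exact Or.inr ⟨Subtype.ext hx1, Subtype.ext hx2⟩

theorem TRR_FS_card {α : Type} [Finite α] (P : α → Prop) : (FS P).card = Nat.card {x // P x} := by
  have h1 : (FS P).card = Set.ncard {x | P x} := by
    unfold FS
    rw [Set.ncard_eq_toFinset_card]
  rw [h1]
  exact (Nat.card_coe_set_eq _).symm

theorem TRR (hSBN : SBN_stmt) (hCNN : CNN_stmt) : TRR_stmt := by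
  classical
  intro C _ _ p hp hR hn
  have : Finite (Ver p C) := by unfold Ver; infer_instance
  rw [SimpleGraph.isTree_iff_connected_and_card]
  refine ⟨hCNN C p hp hR hn, ?_⟩
  have hlt2 : p < p ^ 2 := by
    have := hp.one_lt
    nlinarith
  -- the edges
  have hE : Nat.card (Gr p C).edgeSet = (FS (fun E : Subgroup C => EAb p E ∧ Nat.card E = p ^ 2)).card * (p + 1) := by
    have := Fintype.ofFinite {E : Subgroup C // EAb p E ∧ Nat.card E = p ^ 2}
    rw [TRR_edges hp hR, Nat.card_sigma, TRR_FS_card]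
    have h1 : ∀ E : {E : Subgroup C // EAb p E ∧ Nat.card E = p ^ 2},
        Nat.card {F : Subgroup C // F ≤ E.1 ∧ Nat.card F = p} = p + 1 := by
      intro E
      rw [← TRR_FS_card]
      exact (hSBN C p hp E.1 E.2.1 E.2.2).1
    rw [Finset.sum_congr rfl (fun E _ => h1 E), Finset.sum_const, smul_eq_mul, Finset.card_univ,
      Nat.card_eq_fintype_card]
  -- the vertices
  have hV : Nat.card (Ver p C) = (FS (fun E : Subgroup C => EAb p E ∧ Nat.card E = p)).card +
      (FS (fun E : Subgroup C => EAb p E ∧ Nat.card E = p ^ 2)).card := by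
    have h1 : Nat.card (Ver p C) = (FS (fun E : Subgroup C => E ≠ ⊥ ∧ EAb p E)).card := (TRR_FS_card _).symm
    rw [h1, ← Finset.card_union_of_disjoint]
    · congr 1
      ext E
      rw [Finset.mem_union, mem_FS, mem_FS, mem_FS]
      constructor
      · rintro ⟨h1, h2⟩
        rcases TRR_card hp hR h2 h1 with h | h
        · exact Or.inl ⟨h2, h⟩
        · exact Or.inr ⟨h2, h⟩
      · rintro (⟨h1, h2⟩ | ⟨h1, h2⟩)
        · exact ⟨TRR_nb hp h2, h1⟩
        · refine ⟨?_, h1⟩
          rintro rfl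
          rw [Subgroup.card_bot] at h2
          have := hp.one_lt
          nlinarith
    · rw [Finset.disjoint_left]
      intro E h1 h2
      rw [mem_FS] at h1 h2
      have := h1.2.symm.trans h2.2
      omega
  rw [hE, hV]
  have h3 : ((FS (fun E : Subgroup C => EAb p E ∧ Nat.card E = p)).card : ℤ) =
      p * ((FS (fun E : Subgroup C => EAb p E ∧ Nat.card E = p ^ 2)).card : ℤ) + 1 := by linarith
  have h4 : (FS (fun E : Subgroup C => EAb p E ∧ Nat.card E = p)).card =
      p * (FS (fun E : Subgroup C => EAb p E ∧ Nat.card E = p ^ 2)).card + 1 := by exact_mod_cast h3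
  rw [h4]
  ring

end RK
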