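import Pool.Agent.helper70.RK.TRE
import Pool.Agent.helper25.RK.SBN
import Pool.Agent.helper52.RK.R2A
import Pool.Agent.helper29.RK.TRN
import Pool.Agent.helper68.RK.CNN
import Pool.Agent.helper70.RK.TRR
import Pool.Agent.helper25.RK.R2
import Pool.Agent.helper70.RK.FXP
import Pool.Agent.helper37.RK.ST2
import Pool.Agent.helper70.RK.OPN
import Pool.Agent.helper70.RK.OQN
import Pool.Agent.helper70.RK.NAB
import Pool.Agent.helper72.RK.MNS
import Pool.Agent.helper70.RK.FCM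
import Pool.Agent.helper70.RK.RKQ
import Pool.Agent.helper70.RK.HYQ
import Pool.Agent.helper52.RK.QLF
import Pool.Agent.helper50.RK.DRG
import Pool.Agent.helper99.RK.AST
import Pool.Agent.helper70.RK.CVM
import Pool.Agent.helper77.RK.A1U
import Pool.Agent.helper70.RK.A1R
import Pool.Agent.helper70.RK.AFI
import Pool.Agent.helper70.RK.PRD
import Pool.Agent.helper70.RK.PRK
import Pool.Agent.helper70.RK.GDE
import Pool.Agent.helper68.RK.A2M
import Pool.Agent.helper70.RK.A2R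
import Pool.Agent.helper70.RK.A2F
import Pool.Agent.helper31.RK.BY1
import Pool.Agent.helper52.RK.BY2
import Pool.Agent.helper70.RK.BY3
import Pool.Agent.helper70.RK.BNO
import Pool.Agent.helper70.RK.B3
import Pool.Agent.helper70.RK.B4
import Pool.Agent.helper93.RK.BFI
import Pool.Agent.helper70.RK.RES
import Pool.Agent.helper82.LEQ.Final
import Pool.Agent.helper52.LEQ.XT
import Pool.Agent.helper46.LEQ.LM
import Pool.Agent.helper53.LEQ.TR

/-!
# Project RK: assembly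
-/

set_option autoImplicit false

namespace RK

theorem a_LM : LEQ.LM_stmt := LEQ.LM LEQ.XT
theorem a_TR : LEQ.TR_stmt := LEQ.TR a_LM
theorem a_TRE : TRE_stmt := TRE
theorem a_SBN : SBN_stmt := SBN
theorem a_R2A : R2A_stmt := R2A a_SBN LEQ.XT a_LM
theorem a_TRN : TRN_stmt := TRN
theorem a_CNN : CNN_stmt := CNN a_TRN a_SBN
theorem a_TRR : TRR_stmt := TRR a_SBN a_CNN
theorem a_R2 : R2_stmt := R2 a_TRE a_R2A a_TRR a_SBN
theorem a_FXP : FXP_stmt := FXP
theorem a_ST2 : ST2_stmt := ST2 a_R2 a_FXP a_LM a_TR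
theorem a_OPN : OPN_stmt := OPN
theorem a_OQN : OQN_stmt := OQN
theorem a_NAB : NAB_stmt := NAB
theorem a_MNS : MNS_stmt := MNS
theorem a_FCM : FCM_stmt := FCM
theorem a_RKQ : RKQ_stmt := RKQ
theorem a_HYQ : HYQ_stmt := HYQ
theorem a_QLF : QLF_stmt := QLF LEQ.final
theorem a_DRG : DRG_stmt := DRG
theorem a_AST : AST_stmt := AST
theorem a_CVM : CVM_stmt := CVM
theorem a_A1U : A1U_stmt := A1U a_CVM
theorem a_A1R : A1R_stmt := A1R a_OPN
theorem a_AFI : AFI_stmt := AFI a_ST2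
theorem a_PRD : PRD_stmt := PRD a_FCM
theorem a_PRK : PRK_stmt := PRK a_FCM
theorem a_GDE : GDE_stmt := GDE
theorem a_A2M : A2M_stmt := A2M a_CVM a_FCM a_PRK
theorem a_A2R : A2R_stmt := A2R a_OPN a_FCM
theorem a_A2F : A2F_stmt := A2F a_AFI a_FCM a_PRD a_GDE a_A2M a_A2R
theorem a_BY1 : BY1_stmt := BY1 a_OPN a_FCM
theorem a_BY2 : BY2_stmt := BY2 a_NAB a_OQN a_FCM
theorem a_BY3 : BY3_stmt := BY3 a_FCM
theorem a_BNO : BNO_stmt := BNO
theorem a_B3 : B3_stmt := B3 a_ST2 a_DRG a_BY1 a_BY2 a_BY3 a_BNO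
theorem a_B4 : B4_stmt := B4 a_ST2 a_DRG a_BY1 a_BY2
theorem a_BFI : BFI_stmt := BFI a_BY2 a_BY3 a_B3 a_B4
theorem a_RES : RES_stmt := RES a_R2 a_OQN a_NAB a_MNS a_FCM a_RKQ a_HYQ a_QLF a_AST a_A1U a_A1R a_AFI a_A2F a_BFI

end RK
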