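import Mathlib
import Pool.Agent.helper82.LEQ.Spec

/-!
# RK (MP_e82547_al): the Lefschetz form of Quillen's conjecture for all groups of p-rank at most 3

THEOREM (`RES_stmt`). `G` finite, `p` prime, no nontrivial normal `p`-subgroup, every elementary abelian `p`-subgroup of
order at most `p^3`. If (`HypA`) all almost simple quotients of `G` by `p'`-subgroups with socle of order divisible by `p`
satisfy the conjecture (theorem of Aschbacher and Kleidman) and (`HypB`) every nonabelian simple section of `O_p'(G)` (in a quotient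
of `G` by a normal `p'`-subgroup) has an element which is fixed by no automorphism of order `p` (consequence of the classification),
then `G` satisfies the conjecture. Both hypotheses are empty for `p`-solvable `G` with `O_p'(G)` solvable.

This file is the specification = complete paper proof. Row `XX`: file `Pool/Agent/<seat>/RK/XX.lean`,
`import Pool.Agent.helper70.RK.Spec`, `namespace RK`, `open QS (Lef EAb)`, `open LEQ (Stb Nz XS Ls Mb FS mem_FS)`,
`theorem XX (h : YY_stmt) ... : XX_stmt` with only the hypotheses named after `From` (in this order); auxiliary lemmas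
prefixed `XX_`. No straight double quotes, no `convert`, no `congr!`, no `native_decide`.
The rows of project LEQ (`LEQ.LM_stmt`, `LEQ.TR_stmt`, `LEQ.XT_stmt`) are available as hypotheses.

NOTATION. `EAb p E`: `E` is elementary abelian (or trivial). `Stb u E`: `E` is stable under conjugation by `u`.
`Nz E X`: `E` normalises `X`. `Cj g S = g S g⁻¹`. A `p'`-group is a group of order prime to `p`.
-/

set_option autoImplicit false

namespace RK

open QS (Lef EAb)
open LEQ (Stb Nz XS Ls Mb FS)

/-! ## Definitions -/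

/-- no nontrivial normal `p`-subgroup -/
def Op1 (p : ℕ) (G : Type) [Group G] : Prop :=
  ∀ P : Subgroup G, P.Normal → IsPGroup p P → P = ⊥

/-- the subgroup `H` has no nontrivial normal `p`-subgroup -/
def OpS {G : Type} [Group G] (p : ℕ) (H : Subgroup G) : Prop :=
  ∀ P : Subgroup G, P ≤ H → (∀ h ∈ H, ∀ x ∈ P, h * x * h⁻¹ ∈ P) → IsPGroup p P → P = ⊥

/-- the `p`-rank of `G` is at most `r` -/
def Rk (p r : ℕ) (G : Type) [Group G] : Prop := ∀ E : Subgroup G, EAb p E → Nat.card E ≤ p ^ r

/-- the `p`-rank of the subgroup `H` is at most `r` -/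
def RkS {G : Type} [Group G] (p r : ℕ) (H : Subgroup G) : Prop :=
  ∀ E : Subgroup G, E ≤ H → EAb p E → Nat.card E ≤ p ^ r

/-- Q1 for `G` and `p` -/
def Q1 (p : ℕ) (G : Type) [Group G] : Prop := ∃ g : G, Lef G p g ≠ 0

/-- `u` normalises no nontrivial elementary abelian `p`-subgroup of `X` -/
def Der {G : Type} [Group G] (p : ℕ) (X : Subgroup G) (u : G) : Prop :=
  ∀ E : Subgroup G, E ≤ X → EAb p E → Stb u E → E = ⊥

/-- nonabelian simple subgroup -/
def NS {G : Type} [Group G] (S : Subgroup G) : Prop :=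
  IsSimpleGroup S ∧ ∃ x ∈ S, ∃ y ∈ S, x * y ≠ y * x

/-- `g S g⁻¹` -/
def Cj {G : Type} [Group G] (g : G) (S : Subgroup G) : Subgroup G := S.map (MulAut.conj g).toMonoidHom

theorem mem_Cj {G : Type} [Group G] {g x : G} {S : Subgroup G} : x ∈ Cj g S ↔ g⁻¹ * x * g ∈ S := by
  unfold Cj
  rw [Subgroup.mem_map]
  constructor
  · rintro ⟨y, hy, rfl⟩
    have h : g⁻¹ * (g * y * g⁻¹) * g = y := by group
    simpa [MulAut.conj_apply, h] using hy
  · intro h
    refine ⟨g⁻¹ * x * g, h, ?_⟩
    have h1 : g * (g⁻¹ * x * g) * g⁻¹ = x := by group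
    simpa [MulAut.conj_apply] using h1

/-- hypothesis (a): almost simple quotients by `p'`-groups, with socle of order divisible by `p` -/
def HypA (p : ℕ) (G : Type) [Group G] : Prop :=
  ∀ (H : Type) [Group H] [Finite H] (φ : G →* H), Function.Surjective φ → ¬ p ∣ Nat.card φ.ker →
    ∀ S : Subgroup H, S.Normal → NS S → p ∣ Nat.card S → Subgroup.centralizer (S : Set H) = ⊥ → Q1 p H

/-- hypothesis (b): nonabelian simple subgroups of normal `p'`-subgroups of quotients by normal `p'`-subgroups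
(so sections of `O_p'(G)`; empty if `O_p'(G)` is solvable) -/
def HypB (p : ℕ) (G : Type) [Group G] : Prop :=
  ∀ (H : Type) [Group H] [Finite H] (φ : G →* H), Function.Surjective φ → ¬ p ∣ Nat.card φ.ker →
    ∀ V L : Subgroup H, V.Normal → ¬ p ∣ Nat.card V → L ≤ V → NS L →
      ∃ g : L, ∀ α : MulAut L, α ^ p = 1 → α g = g → α = 1

/-- `M / V` is a nontrivial elementary abelian `p`-group, `V`, `M` normal, `V` a `p'`-group -/
structure MV {G : Type} [Group G] (p : ℕ) (V M : Subgroup G) : Prop where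
  vn : V.Normal
  mn : M.Normal
  le : V ≤ M
  vp : ¬ p ∣ Nat.card V
  mp : p ∣ Nat.card M
  pw : ∀ x ∈ M, x ^ p ∈ V
  co : ∀ x ∈ M, ∀ y ∈ M, x * y * x⁻¹ * y⁻¹ ∈ V

/-- `S` is a nonabelian simple subgroup, `N` is generated by its conjugates, two different conjugates of `S`
commute elementwise, and `N` normalises `S` -/
structure Fml {G : Type} [Group G] (N S : Subgroup G) : Prop where
  nn : N.Normal
  ns : NS S
  le : S ≤ N
  st : ∀ v ∈ N, Cj v S = S
  cm : ∀ g : G, Cj g S ≠ S → ∀ x ∈ S, ∀ y ∈ Cj g S, x * y = y * x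
  gen : ∀ T : Subgroup G, (∀ g : G, Cj g S ≤ T) → N ≤ T

/-- `K` is a conjugate of `S` -/
def IsC {G : Type} [Group G] (S K : Subgroup G) : Prop := ∃ g : G, K = Cj g S

/-- all members of `K` commute with `u` -/
def Com {G : Type} [Group G] (K : Subgroup G) (u : G) : Prop := ∀ y ∈ K, y * u = u * y

/-! ## Part 1: groups of p-rank at most 2 -/

/-- **TRE** (medium; graph theory only). A finite tree with a proper 2-colouring has a vertex fixed by all
colour-preserving automorphisms. From nothing.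

PROOF. Strong induction on the number of vertices. One vertex: clear. Two vertices (then they are adjacent, with
different colours): clear. At least 3 vertices: let `V'` be the set of the vertices of degree at least 2. It is
nonempty (a path of maximal length has at least 3 vertices), invariant under automorphisms, and the induced graph is
a tree: acyclic, and connected since the inner vertices of a path have degree at least 2, so a path between
two members of `V'` stays in `V'`. It has fewer vertices (a finite tree with at least two vertices has a leaf). Every colour-preserving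
automorphism restricts to `V'`. (Alternative: minimise `∑_w dist(v,w)`; two minimising vertices are adjacent.) -/
def TRE_stmt : Prop :=
  ∀ (V : Type) [Finite V] (T : SimpleGraph V), T.IsTree → ∀ col : V → Bool,
    (∀ v w, T.Adj v w → col v ≠ col w) →
    ∃ v : V, ∀ σ : Equiv.Perm V, (∀ a b, T.Adj a b → T.Adj (σ a) (σ b)) → (∀ a, col (σ a) = col a) → σ v = v

/-- **SBN** (short-medium). From nothing. An elementary abelian group `E` of order `p^2` has exactly `p + 1` subgroups of
order `p`, and every subgroup of `E` other than `⊥`, `E` has order `p`.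

PROOF. Lagrange for the second part. Every `x ≠ 1` of `E` generates a subgroup of order `p`; a subgroup of order
`p` has `p - 1` elements `≠ 1` and is generated by each of them. So the `p^2 - 1` elements `≠ 1` of `E` fall into the subgroups
of order `p`, `p - 1` in each: their number is `p + 1`. -/
def SBN_stmt : Prop :=
  ∀ (G : Type) [Group G] [Finite G] (p : ℕ), p.Prime → ∀ E : Subgroup G, EAb p E → Nat.card E = p ^ 2 →
    (FS (fun F : Subgroup G => F ≤ E ∧ Nat.card F = p)).card = p + 1 ∧
    ∀ F : Subgroup G, F ≤ E → F ≠ ⊥ → F ≠ E → Nat.card F = p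

/-- **R2A** (short-medium). From SBN, `LEQ.XT_stmt`, `LEQ.LM_stmt`.

PROOF. `Lef C p 1 = Ls p ⊤ 1 = - ∑ Mb 1 E` over all `E` with `EAb p E` (LM; `Stb 1 E` is trivial). `|E|` divides `p^2`... it is a power of `p`
(every element has order `1` or `p`), at most `p^2`. `Mb 1 ⊥ = 1`. `|E| = p`: no `F` with `F ≠ ⊥`, `F < E`, so `Mb 1 E` is
`XS` of the empty poset, `-1` (only the empty chain; XT). `|E| = p^2`: by XT
`Mb 1 E = -1 - ∑_F XS (fun F' => .. ∧ F' < F)`, `F` of order `p`, the inner posets are empty: `Mb 1 E = -1 + (p + 1) = p`. -/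
def R2A_stmt : Prop :=
  ∀ (C : Type) [Group C] [Finite C] (p : ℕ), p.Prime → Rk p 2 C →
    Lef C p 1 = -1 + ((FS (fun E : Subgroup C => EAb p E ∧ Nat.card E = p)).card : ℤ) -
      p * ((FS (fun E : Subgroup C => EAb p E ∧ Nat.card E = p ^ 2)).card : ℤ)

/-- the vertices: the nontrivial elementary abelian `p`-subgroups -/
def Ver (p : ℕ) (C : Type) [Group C] : Type := {E : Subgroup C // E ≠ ⊥ ∧ EAb p E}

/-- the comparability graph -/
def Gr (p : ℕ) (C : Type) [Group C] : SimpleGraph (Ver p C) where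
  Adj E F := E.1 < F.1 ∨ F.1 < E.1
  symm := ⟨fun _ _ h => h.symm⟩
  loopless := ⟨fun E h => by rcases h with h | h <;> exact lt_irrefl _ h⟩

/-- **TRN** (short-medium). From nothing. Any two vertices are joined up to conjugation.

PROOF. `E ≤ P`, `F ≤ Q` Sylow `p`-subgroups, `g P g⁻¹ = Q`. `Q ≠ ⊥` as `F ≠ ⊥`; let `Z` be a subgroup of order `p` of the
centre of `Q`. Let `E'` be `g E g⁻¹` or `F`: `E' ≤ Q`, so `E' ⊔ Z` is elementary abelian (`Z` is central in `Q`), `E' ≤ E' ⊔ Z`,
`Z ≤ E' ⊔ Z`, so `E'`, `E' ⊔ Z`, `Z` are equal or adjacent. So both are reachable from `Z`. -/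
def TRN_stmt : Prop :=
  ∀ (C : Type) [Group C] [Finite C] (p : ℕ), p.Prime → ∀ E F : Ver p C,
    ∃ (g : C) (E' : Ver p C), E'.1 = Cj g E.1 ∧ (Gr p C).Reachable E' F

/-- **CNN** (medium). From TRN, SBN. If `n₁ - p n₂ = 1` then the graph is connected.

PROOF. There is a vertex (`n₁ ≥ 1`). For a connected component `K` let `e(K)` be the number of its members of order `p` minus `p` times the
number of its members of order `p^2`. By `Rk p 2` every vertex has order `p` or `p^2`, so `∑_K e(K) = n₁ - p n₂ = 1`. Conjugation by `g`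
is an automorphism of the graph preserving orders, so by TRN all `e(K)` are equal to one integer `e`. (number of components) `* e = 1`,
so there is only one component. -/
def CNN_stmt : Prop :=
  ∀ (C : Type) [Group C] [Finite C] (p : ℕ), p.Prime → Rk p 2 C →
    ((FS (fun E : Subgroup C => EAb p E ∧ Nat.card E = p)).card : ℤ) -
      p * ((FS (fun E : Subgroup C => EAb p E ∧ Nat.card E = p ^ 2)).card : ℤ) = 1 →
    (Gr p C).Connected

/-- **TRR** (medium). From SBN, CNN. If `n₁ - p n₂ = 1` then the graph is a tree.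

PROOF. Connected by CNN. By `Rk p 2` an edge joins a vertex of order `p^2` with one of its `p + 1` subgroups of order `p` (SBN), so
there are `(p + 1) n₂` edges and `n₁ + n₂ = (p + 1) n₂ + 1` vertices: `SimpleGraph.isTree_iff_connected_and_card`. -/
def TRR_stmt : Prop :=
  ∀ (C : Type) [Group C] [Finite C] (p : ℕ), p.Prime → Rk p 2 C →
    ((FS (fun E : Subgroup C => EAb p E ∧ Nat.card E = p)).card : ℤ) -
      p * ((FS (fun E : Subgroup C => EAb p E ∧ Nat.card E = p ^ 2)).card : ℤ) = 1 →
    (Gr p C).IsTree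

/-- **R2** (short-medium). From TRE, R2A, TRR, SBN.

PROOF. Suppose `Lef C p 1 = 0`. By R2A, TRR the graph is a tree. Colour `E` by `|E| = p` (adjacent vertices have different
orders, both `p` or `p^2`). Conjugation by `g` is a colour-preserving automorphism, so by TRE some vertex `E` is normal in `C`, and a `p`-group
(`x^p = 1`), `≠ ⊥`: contradiction to `Op1 p C`. -/
def R2_stmt : Prop :=
  ∀ (C : Type) [Group C] [Finite C] (p : ℕ), p.Prime → Rk p 2 C → Op1 p C → Lef C p 1 ≠ 0

/-! ## Part 2: the rank drop -/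

/-- **FXP** (short-medium). From nothing.

PROOF. `E` (a `p`-group) acts by conjugation on the set of all Sylow `p`-subgroups of `X`, whose number is `1` mod `p`: it fixes
one, `S`; `S ≠ ⊥` since `p` divides `|X|`. `E` acts by conjugation on `S`; the number of fixed points is `|S|` mod `p`, so divisible by
`p`, and `1` is a fixed point: there is a fixed `x ≠ 1`; a suitable power of it has order `p`. (Or: the solutions of `x^p = 1` in `X` are
a multiple of `p` in number; or use a Sylow subgroup of `E X` containing `E`.) -/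
def FXP_stmt : Prop :=
  ∀ (G : Type) [Group G] [Finite G] (p : ℕ), p.Prime → ∀ E X : Subgroup G, IsPGroup p E → Nz E X →
    p ∣ Nat.card X → ∃ x ∈ X, x ≠ 1 ∧ x ^ p = 1 ∧ ∀ e ∈ E, e * x = x * e

/-- **ST2** (medium). From R2, FXP, `LEQ.LM_stmt`, `LEQ.TR_stmt`. `C = centralizer {u}`.

PROOF. (1) `Lef G p u = Lef C p 1`. By LM, `Lef G p u = - ∑ Mb u E` over the `E` with `EAb p E`, `Stb u E`; by TR (for `H = C`, `h = 1`)
`Lef C p 1 = Ls p C 1 = - ∑ Mb 1 E` over the `E ≤ C` with `EAb p E`, `Stb 1 E` (trivial). By `h1` the index sets are the same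
(`E ≤ C` implies `Stb u E`), and `Mb u E = Mb 1 E` for `E ≤ C` since all subgroups of `E` are stable under `u` and under `1`.
(2) `Rk p 2 C`: let `E ≤ C`, `EAb p E` (as a subgroup of `G`, by `map subtype`). By `h2` and FXP there is `x ∈ X`, `x^p = 1 ≠ x`, commuting with `E`, and
`x ∉ E` since `E ⊓ X = ⊥`. So `E ⊔ zpowers x` is elementary abelian of order `p |E| ≤ p^3`, `|E| ≤ p^2`.
(3) `Op1 p C` from `h3`. So R2 gives `Lef C p 1 ≠ 0`. -/
def ST2_stmt : Prop :=
  ∀ (G : Type) [Group G] [Finite G] (p : ℕ), p.Prime → Rk p 3 G → ∀ (u : G) (X : Subgroup G), p ∣ Nat.card X →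
    (∀ E : Subgroup G, EAb p E → Stb u E → Com E u) →
    (∀ E : Subgroup G, EAb p E → Com E u → Nz E X ∧ E ⊓ X = ⊥) →
    OpS p (Subgroup.centralizer {u}) → Lef G p u ≠ 0

/-! ## Part 3: general group theory -/

/-- **OPN** (short-medium). From nothing. `O_p(N) ≤ O_p(G)` for a normal subgroup `N`.

PROOF. Let `P ≤ N` be a `p`-group normal in `N`, `T` the intersection of all Sylow `p`-subgroups of `N` (as subgroups of `G`): it is a
`p`-group, it contains `P` (a normal `p`-subgroup is in every Sylow subgroup: some Sylow subgroup contains it, all are conjugate), and it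
is normal in `G` since conjugation by `g ∈ G` permutes the Sylow subgroups of `N`. So `T = ⊥`. -/
def OPN_stmt : Prop :=
  ∀ (G : Type) [Group G] [Finite G] (p : ℕ), p.Prime → Op1 p G → ∀ N : Subgroup G, N.Normal → OpS p N

/-- **OQN** (short-medium). From nothing. The same for `p'`-subgroups.

PROOF. The product of two `p'`-subgroups normal in `N` is a `p'`-subgroup normal in `N` (its order divides the product of the orders). So there
is a largest one `T` (of maximal order), it contains all of them, and conjugation by `g ∈ G` maps `T` to a `p'`-subgroup normal in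
`N` of the same order, so to `T`. `T` is normal in `G`, so `T = ⊥`. -/
def OQN_stmt : Prop :=
  ∀ (G : Type) [Group G] [Finite G] (p : ℕ), p.Prime → (∀ P : Subgroup G, P.Normal → ¬ p ∣ Nat.card P → P = ⊥) →
    ∀ N : Subgroup G, N.Normal → ∀ P : Subgroup G, P ≤ N → (∀ h ∈ N, ∀ x ∈ P, h * x * h⁻¹ ∈ P) → ¬ p ∣ Nat.card P → P = ⊥

/-- **NAB** (short-medium). From nothing. If `G` has no nontrivial normal `p`-subgroup and no nontrivial normal `p'`-subgroup then it has no
nontrivial abelian normal subgroup `A`.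

PROOF. The elements of `A` whose order is a power of `p` form a normal `p`-subgroup of `G`, so it is trivial; so `p` does not divide
`|A|` (Cauchy) and `A = ⊥`. -/
def NAB_stmt : Prop :=
  ∀ (G : Type) [Group G] [Finite G] (p : ℕ), p.Prime → Op1 p G → (∀ P : Subgroup G, P.Normal → ¬ p ∣ Nat.card P → P = ⊥) →
    ∀ A : Subgroup G, A.Normal → (∀ x ∈ A, ∀ y ∈ A, x * y = y * x) → A = ⊥

/-- **MNS** (medium). From nothing. A nonabelian minimal normal subgroup `N` is generated by the commuting conjugates of a nonabelian simple group.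

PROOF. Let `S ≠ ⊥` be of minimal order among the nontrivial subgroups of `N` which are normalised by `N` (`∀ v ∈ N, Cj v S = S`). All `Cj g S` are of
this kind and of the same order (`N` is normal). If `Cj g S ≠ S` then `S ⊓ Cj g S` is normalised by `N` and smaller than `S`, so `⊥`; hence for `x ∈ S`,
`y ∈ Cj g S` the commutator `x y x⁻¹ y⁻¹` is in the intersection, so `x y = y x`. The subgroup generated by all `Cj g S` is normal in `G`, `≠ ⊥`,
`≤ N`, so `= N` (this is `gen`: a subgroup containing all `Cj g S` contains `N`). `S` is simple: let `T ≤ S` be normalised by `S`. A conjugate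
`Cj g S ≠ S` commutes with `S`, so normalises `T`; so all `Cj g S` normalise `T`, hence `N` does (`gen` for the normaliser of `T`); so `T = ⊥` or `T = S` by minimality.
`S` is not commutative: otherwise every `Cj g S` is commutative and commutes with the others (conjugate `cm`), so `N` is
commutative (`gen` twice, for centralisers). -/
def MNS_stmt : Prop :=
  ∀ (G : Type) [Group G] [Finite G] (N : Subgroup G), N.Normal → N ≠ ⊥ →
    (∀ M : Subgroup G, M.Normal → M ≤ N → M = ⊥ ∨ M = N) → (∃ x ∈ N, ∃ y ∈ N, x * y ≠ y * x) →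
    ∃ S : Subgroup G, Fml N S

/-- **FCM** (short-medium). From nothing. Basic facts on the conjugates `K`, `K'` of `S`: different ones commute and intersect trivially; every `K` is
nonabelian simple, normalised by `N`, `K ≤ N`; an element of `G` commuting with all elements of all `K` commutes with `N`.

PROOF. Conjugate `cm` by `h`: `K = Cj h S`, `K' = Cj h (Cj g S)`. An element of `K ⊓ K'` is in the centre of `K`, which is
trivial since `K` is simple and not commutative. `K` is isomorphic to `S`. `Cj v (Cj g S) = Cj g (Cj (g⁻¹ v g) S) = Cj g S`. `gen` for the centraliser. -/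
def FCM_stmt : Prop :=
  ∀ (G : Type) [Group G] [Finite G] (N S : Subgroup G), Fml N S →
    (∀ K K' : Subgroup G, IsC S K → IsC S K' → K ≠ K' → (∀ x ∈ K, ∀ y ∈ K', x * y = y * x) ∧ K ⊓ K' = ⊥) ∧
    (∀ K : Subgroup G, IsC S K → NS K ∧ K ≤ N ∧ (∀ v ∈ N, Cj v K = K) ∧ (∀ g : G, IsC S (Cj g K)) ∧
      (∀ x ∈ K, (∀ y ∈ K, x * y = y * x) → x = 1) ∧ Nat.card K = Nat.card S) ∧
    (∀ x : G, (∀ K : Subgroup G, IsC S K → Com K x) → Com N x)

/-- **RKQ** (short-medium). From nothing. The `p`-rank of `G / V` (`V` a normal `p'`-subgroup).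

PROOF. Let `E` be an elementary abelian `p`-subgroup of `G / V`, `M` its preimage (`V ≤ M`, `|M| = |V| |E|`), `P` a Sylow
`p`-subgroup of `M`: `|P| = |E|` since `|E|` is a power of `p` and `p` does not divide `|V|`. `P` maps injectively to `E` (`P ⊓ V = ⊥`), so it is
elementary abelian, `|E| = |P| ≤ p^r`. -/
def RKQ_stmt : Prop :=
  ∀ (G : Type) [Group G] [Finite G] (p r : ℕ), p.Prime → Rk p r G → ∀ (V : Subgroup G) [V.Normal], ¬ p ∣ Nat.card V →
    Rk p r (G ⧸ V)

/-- **HYQ** (short). From nothing. The hypotheses pass to `G / V` (`V` a normal `p'`-subgroup): compose with `G → G / V`; the kernel of the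
composition has order `|V| |ker φ|`. -/
def HYQ_stmt : Prop :=
  ∀ (G : Type) [Group G] [Finite G] (p : ℕ), p.Prime → ∀ (V : Subgroup G) [V.Normal], ¬ p ∣ Nat.card V →
    (HypA p G → HypA p (G ⧸ V)) ∧ (HypB p G → HypB p (G ⧸ V))

/-- **QLF** (short-medium). From `LEQ.FIN_stmt`. Q1 for `G / V` implies Q1 for `G` (`V` a normal `p'`-subgroup).

PROOF. `LEQ.FIN_stmt` (theorem `LEQ.final`) for the empty family `ι = Empty`; the centraliser of the empty family is `⊤`, and
`Lef ⊤ p c` for the subgroup `⊤` of `G / V` equals `Lef (G / V) p c` (transport the chains by `Subgroup.topEquiv`, or `LEQ.TR_stmt` with `H = ⊤` and `LEQ.LM_stmt`). -/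
def QLF_stmt : Prop :=
  ∀ (G : Type) [Group G] [Finite G] (p : ℕ), p.Prime → ∀ (V : Subgroup G) [V.Normal], ¬ p ∣ Nat.card V →
    Q1 p (G ⧸ V) → Q1 p G

/-- **DRG** (medium). From nothing. `p`-rank one: some `u` normalises no nontrivial elementary abelian `p`-subgroup of `D`.

PROOF. Work in the group `D`. Let `Ω` be the set of the subgroups of order `p` of `D`, nonempty by Cauchy. `D` acts on `Ω` by conjugation, transitively: `A, B ∈ Ω` lie in Sylow
subgroups `P`, `Q`; after conjugation `P = Q`; the centre of `P` contains some `Z ∈ Ω`, and `A Z` is elementary abelian, so has order at most `p`: `A = Z`, and `B = Z`. `|Ω| ≥ 2`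
since a unique member would be normal in `D`, contradiction to `OpS`. By Burnside's lemma (number of orbits 1) the average number of fixed points on `Ω` of the elements of `D` is `1`, and
`1` fixes `|Ω| ≥ 2`; so some `u ∈ D` fixes no member of `Ω`. Let `E ≤ D`, `EAb p E`, `Stb u E`, `E ≠ ⊥`: `|E| ≤ p`, so `E ∈ Ω` is fixed by `u`: contradiction. -/
def DRG_stmt : Prop :=
  ∀ (G : Type) [Group G] [Finite G] (p : ℕ), p.Prime → ∀ D : Subgroup G, RkS p 1 D → p ∣ Nat.card D → OpS p D →
    ∃ u ∈ D, Der p D u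

/-! ## Part 4: case A, a minimal normal subgroup V of order prime to p with O_p(G/V) nontrivial -/

/-- **AST** (medium). From nothing. The preimage `M` of the elements of order `1` or `p` of the centre of `O_p(G/V)`.

PROOF. Let `P` be a nontrivial normal `p`-subgroup of `G / V`, `Z` its centre, `W` the set of all `z ∈ Z` with `z^p = 1`: a subgroup (abelian), nontrivial
(the centre of a nontrivial `p`-group is nontrivial; Cauchy), normal in `G / V`. `M` = preimage of `W`: `|M| = |V| |W|`. -/
def AST_stmt : Prop :=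
  ∀ (G : Type) [Group G] [Finite G] (p : ℕ), p.Prime → ∀ (V : Subgroup G) [V.Normal], ¬ p ∣ Nat.card V →
    ¬ Op1 p (G ⧸ V) → ∃ M : Subgroup G, MV p V M

/-- **CVM** (medium). From nothing.

PROOF. Let `T` be the set of all `x ∈ M` with `x^p = 1` which commute with all elements of `V`. Let `x, y ∈ T`, `c = x y x⁻¹ y⁻¹ ∈ V` (`MV.co`). `c` commutes with `x`, `y` (they
commute with `V`). So `c^p = x^p y x^(-p) y⁻¹ = 1` (`(x y x⁻¹)^...`: from `x y = c y x` and `c` central one gets `x^n y = c^n y x^n`), and `c ∈ V`, so `c = 1` as `p` does not divide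
`|V|`. So `x y = y x`, `(x y)^p = 1`: `T` is a subgroup, a `p`-group, normal in `G` (`M`, `V` are normal). So `T = ⊥` by `Op1 p G`. -/
def CVM_stmt : Prop :=
  ∀ (G : Type) [Group G] [Finite G] (p : ℕ), p.Prime → Op1 p G → ∀ V M : Subgroup G, MV p V M →
    ∀ x ∈ M, x ^ p = 1 → Com V x → x = 1

/-- **A1U** (medium). From CVM. The regular orbit in the abelian case.

PROOF. Write `y^x = x y x⁻¹`. Choose `u ∈ V` such that the number of `x ∈ M` with `x u = u x` is minimal. Suppose `x ∈ M`, `x^p = 1`, `x u = u x`, `x ≠ 1`. By CVM some `y ∈ V` has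
`x y ≠ y x`. Let `N(v) = ∏_(i < p) x^i v x^(-i)` for `v ∈ V` (`V` is commutative and normal): a homomorphism `V → V`, `N(x v x⁻¹) = N(v)` (as `x^p = 1`) and `x N(v) x⁻¹ = N(v)`; if
`x v = v x` then `N(v) = v^p`. Let `w = y^p N(y)⁻¹`. `N(w) = N(y)^p N(N(y))⁻¹ = N(y)^p N(y)^(-p) = 1`. `w ≠ 1`: otherwise `y^p = N(y)` commutes with `x`,
so `(x y x⁻¹ y⁻¹)^p = 1`, and `x y x⁻¹ y⁻¹ ∈ V`, so `= 1`. `x w ≠ w x`: otherwise `w^p = N(w) = 1`, `w = 1`. Let `m ∈ M` commute with `u w`. For `v ∈ V`: `m x^i v x^(-i) m⁻¹ = x^i m v m⁻¹ x^(-i)`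
(`m x^i = x^i m v'` with `v' ∈ V`, which commutes with `v`), so `m N(v) m⁻¹ = N(m v m⁻¹)`. So `m` commutes with `N(u w) = u^p`, hence with `u` (`(m u m⁻¹ u⁻¹)^p = 1` in `V`), hence with `w`.
So the centraliser of `u w` in `M` is contained in that of `u` and does not contain `x`: contradiction to the choice of `u`. -/
def A1U_stmt : Prop :=
  ∀ (G : Type) [Group G] [Finite G] (p : ℕ), p.Prime → Op1 p G → ∀ V M : Subgroup G, MV p V M →
    (∀ x ∈ V, ∀ y ∈ V, x * y = y * x) → ∃ u ∈ V, ∀ x ∈ M, x ^ p = 1 → x * u = u * x → x = 1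

/-- **A1R** (short-medium). From OPN. `O_p(C_G(u)) = 1` in the abelian case.

PROOF. Let `R ≤ C = centralizer {u}` be a `p`-group normal in `C`. `V ≤ C` (`V` is commutative). For `r ∈ R`, `v ∈ V`: `r v r⁻¹ v⁻¹ ∈ R ⊓ V` (`V` is normal in `G`, `R` in `C`), which is trivial
(`R` a `p`-group, `V` a `p'`-group). So `R ≤ B := centralizer V`, a normal subgroup of `G`, `B ≤ C` as `u ∈ V`; `R` is normal in `B`. OPN: `R = ⊥`. -/
def A1R_stmt : Prop :=
  ∀ (G : Type) [Group G] [Finite G] (p : ℕ), p.Prime → Op1 p G → ∀ V : Subgroup G, V.Normal → ¬ p ∣ Nat.card V →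
    (∀ x ∈ V, ∀ y ∈ V, x * y = y * x) → ∀ u ∈ V, OpS p (Subgroup.centralizer {u})

/-- **AFI** (short-medium). From ST2. End of case A.

PROOF. ST2 with `X = M`. First hypothesis: for `x ∈ E`, `u x u⁻¹ x⁻¹ ∈ E` (`Stb u E`) and `∈ V` (`u ∈ V`, `V` normal), and an element `z` of `E ⊓ V` has `z^p = 1` and order dividing `|V|`: `z = 1`. Second: `M` is
normal; `z ∈ E ⊓ M` commutes with `u`, `z^p = 1`, so `z = 1`. -/
def AFI_stmt : Prop :=
  ∀ (G : Type) [Group G] [Finite G] (p : ℕ), p.Prime → Rk p 3 G → ∀ V M : Subgroup G, MV p V M → ∀ u ∈ V,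
    (∀ x ∈ M, x ^ p = 1 → x * u = u * x → x = 1) → OpS p (Subgroup.centralizer {u}) → Q1 p G

/-- **PRD** (short-medium). From FCM. Products over sets of conjugates.

PROOF. Induction on the finite set `I`. `I = ∅`: `u = 1`. `I ∪ {K₀}`, `K₀ ∉ I`, `u` for `I`: take `g K₀ * u`. For `K₀` itself: `v = u`, which commutes with `K₀` (`K₀ ∉ I`). For `K ∈ I`: `u = g K * v` and
`g K₀ * g K * v = g K * (g K₀ * v)`, `g K₀` commutes with `K` (FCM). For `K ∉ I`, `K ≠ K₀`: both factors commute with `K`. -/
def PRD_stmt : Prop :=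
  ∀ (G : Type) [Group G] [Finite G] (N S : Subgroup G), Fml N S → ∀ g : Subgroup G → G,
    (∀ K, IsC S K → g K ∈ K) → ∀ I : Finset (Subgroup G), (∀ K ∈ I, IsC S K) →
    ∃ u ∈ N, (∀ K ∈ I, ∃ v, Com K v ∧ u = g K * v) ∧ ∀ K, IsC S K → K ∉ I → Com K u

/-- **PRK** (short-medium). From FCM. `x` commuting with `u` permutes `I` and commutes with the component of `u` in each `K ∈ I` it normalises.

PROOF. (1) For `K ∈ I`: `K' = Cj x K` is a conjugate of `S`. If `K' ∉ I` then `K'` commutes with `u`, so (conjugating by `x⁻¹`, `x u = u x`) `K` commutes with `u = g K * v`, and with `v`, so with `g K`: `g K` is in the centre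
of `K`, so `= 1`: contradiction. (2) `u = g K * v = x u x⁻¹ = (x (g K) x⁻¹) (x v x⁻¹)`, and `x v x⁻¹` commutes with `Cj x K = K`. So `(g K)⁻¹ (x (g K) x⁻¹) = v (x v x⁻¹)⁻¹` is in `K` and commutes with `K`, so `= 1`. -/
def PRK_stmt : Prop :=
  ∀ (G : Type) [Group G] [Finite G] (N S : Subgroup G), Fml N S → ∀ g : Subgroup G → G,
    (∀ K, IsC S K → g K ∈ K ∧ g K ≠ 1) → ∀ I : Finset (Subgroup G), (∀ K ∈ I, IsC S K) → ∀ u : G,
    (∀ K ∈ I, ∃ v, Com K v ∧ u = g K * v) → (∀ K, IsC S K → K ∉ I → Com K u) →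
    ∀ x : G, x * u = u * x → ∀ K ∈ I, Cj x K ∈ I ∧ (Cj x K = K → x * g K = g K * x)

/-- `g K` is an element of `K`, not `1`, and an element `x` of order `1` or `p` modulo the centraliser of `K` (`x^p`
commutes with `K`) which normalises `K` and commutes with `g K` commutes with `K` -/
def Gd {G : Type} [Group G] (p : ℕ) (K : Subgroup G) (a : G) : Prop :=
  a ∈ K ∧ a ≠ 1 ∧ ∀ x : G, Cj x K = K → Com K (x ^ p) → x * a = a * x → Com K x

/-- **GDE** (short-medium). From nothing. Existence of the good elements from (b).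

PROOF. `HypB` for `H = G`, `φ = id` (the kernel has order `1`): `g : K` fixed by no automorphism of order `p`. If `g ≠ 1` take `a = g`. If `g = 1` then no automorphism of `K` has order `p`: take any `a ≠ 1`. Let `x` be as in `Gd`: conjugation by `x` is an automorphism `α` of `K`,
`α^p = 1` (`x^p` commutes with `K`), `α a = a`, so `α = 1`: `x` commutes with `K`. -/
def GDE_stmt : Prop :=
  ∀ (G : Type) [Group G] [Finite G] (p : ℕ), p.Prime → HypB p G → ∀ V K : Subgroup G, V.Normal → ¬ p ∣ Nat.card V →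
    K ≤ V → NS K → ∃ a : G, Gd p K a

/-- **A2M** (medium). From CVM, FCM, PRK. No element of order `p` of `M` commutes with `u`, if `I` contains at least one and at most one member of each `M`-orbit of conjugates.

PROOF. Let `x ∈ M`, `x^p = 1`, `x u = u x`. Let `K ∈ I`. By PRK `Cj x K ∈ I`, and it is in the `M`-orbit of `K`, so `Cj x K = K` (`hI1`), and `x` commutes with `g K`, so with `K` (`Gd`; `x^p = 1`). Let `K'` be any
conjugate of `S`: `K' = Cj m K`, `K ∈ I`, `m ∈ M` (`hI2`). `m⁻¹ x m = x v`, `v ∈ V` (`MV.co`). `x v` has `(x v)^p = m⁻¹ x^p m = 1`, and it acts on `K` by conjugation as `v` does (`x` commutes with `K` and `v` normalises `K`: `(x v) k (x v)⁻¹ = x (v k v⁻¹) x⁻¹ = v k v⁻¹`). So `v^p`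
acts trivially on `K` (`v^i k v^(-i) = (x v)^i k (x v)^(-i)` by induction), and `v^|V| = 1`; `p` and `|V|` are coprime, so `v` commutes with `K`, so `x v = m⁻¹ x m` commutes with `K`, `x` commutes with `K' = m K m⁻¹`. So
`x` commutes with all conjugates of `S`, so with `V` (FCM), so `x = 1` by CVM. -/
def A2M_stmt : Prop :=
  ∀ (G : Type) [Group G] [Finite G] (p : ℕ), p.Prime → Op1 p G → ∀ V M S : Subgroup G, MV p V M → Fml V S →
    ∀ g : Subgroup G → G, (∀ K, IsC S K → Gd p K (g K)) → ∀ I : Finset (Subgroup G), (∀ K ∈ I, IsC S K) →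
    (∀ K ∈ I, ∀ m ∈ M, Cj m K ∈ I → Cj m K = K) → (∀ K', IsC S K' → ∃ K ∈ I, ∃ m ∈ M, K' = Cj m K) →
    ∀ u : G, (∀ K ∈ I, ∃ v, Com K v ∧ u = g K * v) → (∀ K, IsC S K → K ∉ I → Com K u) →
    ∀ x ∈ M, x ^ p = 1 → x * u = u * x → x = 1

/-- **A2R** (medium). From OPN, FCM. `O_p(C_G(u)) = 1`.

PROOF. Let `R ≤ C = centralizer {u}` be a `p`-group normal in `C`. If `v ∈ V` commutes with `u` and `r ∈ R` then `r v r⁻¹ v⁻¹ ∈ R ⊓ V = ⊥`: `R` commutes with all `v ∈ V` which commute with `u`. (1) `K ∉ I`, a conjugate of `S`: `K ≤ V` commutes with `u`, so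
`R` commutes with `K`. (2) `K ∈ I`: `g K` commutes with `u = g K * v` (`v` commutes with `K`), so `r ∈ R` commutes with `g K`, `g K ∈ K ⊓ Cj r K`, so `Cj r K = K` (FCM, `g K ≠ 1`). `r` has order `p^k`: the elements `r^(p^j)` normalise `K` and commute with `g K`; by downward induction on
`j` they commute with `K` (`Gd`: `(r^(p^j))^p = r^(p^(j+1))` commutes with `K`). So `R` commutes with all conjugates, so with `V`: `R ≤ B := centralizer V`, normal in `G`, `B ≤ C`, so `R` is normal in `B`; OPN: `R = ⊥`. -/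
def A2R_stmt : Prop :=
  ∀ (G : Type) [Group G] [Finite G] (p : ℕ), p.Prime → Op1 p G → ∀ V S : Subgroup G, ¬ p ∣ Nat.card V → Fml V S →
    ∀ g : Subgroup G → G, (∀ K, IsC S K → Gd p K (g K)) → ∀ I : Finset (Subgroup G), (∀ K ∈ I, IsC S K) →
    ∀ u ∈ V, (∀ K ∈ I, ∃ v, Com K v ∧ u = g K * v) → (∀ K, IsC S K → K ∉ I → Com K u) →
    OpS p (Subgroup.centralizer {u})

/-- **A2F** (medium). From AFI, FCM, PRD, GDE, A2M, A2R.

PROOF. Every conjugate `K` of `S` has `NS K` and `|K| = |S|` divides `|V|` (FCM): choose `g K` by GDE (`g K = 1` for the other subgroups). `M` acts on the finite set of the conjugates of `S` by `Cj` (`Cj m (Cj m' K) = Cj (m m') K`): let `I` contain exactly one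
member of every `M`-orbit. PRD gives `u`; A2M, A2R and AFI. -/
def A2F_stmt : Prop :=
  ∀ (G : Type) [Group G] [Finite G] (p : ℕ), p.Prime → Op1 p G → Rk p 3 G → HypB p G → ∀ V M S : Subgroup G, MV p V M →
    Fml V S → Q1 p G

/-! ## Part 5: case B, no nontrivial normal p'-subgroup -/

/-- no nontrivial normal `p'`-subgroup -/
def Oq1 (p : ℕ) (G : Type) [Group G] : Prop := ∀ P : Subgroup G, P.Normal → ¬ p ∣ Nat.card P → P = ⊥

/-- the setting of case B: `Y` is the centraliser of the simple group `S`, `D` the centraliser of `Y`, `Y ≠ ⊥` -/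
structure BS {G : Type} [Group G] (p : ℕ) (N S Y D : Subgroup G) : Prop where
  op : Op1 p G
  oq : Oq1 p G
  fm : Fml N S
  ey : Y = Subgroup.centralizer (S : Set G)
  ed : D = Subgroup.centralizer (Y : Set G)
  yn : Y ≠ ⊥

/-- **BY1** (medium). From OPN, FCM. `O_p(Y) = 1`.

PROOF. Let `T ≤ Y` be a `p`-group normal in `Y`, `N' = Y ⊓ N` (normalised by `Y`). Let `K ≠ S` be a conjugate of `S`: `K ≤ Y` (it commutes with `S`), `K ≤ N'`. For `t ∈ T`, `k ∈ K` the element `c = t k t⁻¹ k⁻¹` is in `T₀ = T ⊓ N`. `T₀` is a `p`-group normalised by `Y` (both are) . Claim: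
`T₀` commutes with `K`: for `t ∈ T₀ ≤ N`, `k ∈ K`: `t k t⁻¹ k⁻¹ ∈ K` (`N` normalises `K`) and `∈ T₀`; `T₀ ⊓ K` is a normal `p`-subgroup of the simple group `K`, which is not a `p`-group (a simple `p`-group is commutative), so it is `⊥`. So `T₀` commutes with all `K ≠ S` and with `S` (`T₀ ≤ Y`), so with
`N` (FCM), so `T₀` is contained in the centre of `N`; the centre of `N` is an abelian normal subgroup of `G`; `T₀` is a `p`-group normal in `centralizer N` (it is central in it... `T₀ ≤ N` commutes with the centraliser of `N`), so OPN for the normal subgroup `centralizer N` gives `T₀ = ⊥`. Hence `T` commutes with all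
`K ≠ S` and with `S`, so with `N`: `T ≤ B := centralizer N`, which is normal in `G`, `B ≤ Y` (`S ≤ N`), `T` is normal in `B`. OPN: `T = ⊥`. -/
def BY1_stmt : Prop :=
  ∀ (G : Type) [Group G] [Finite G] (p : ℕ), p.Prime → ∀ N S Y D : Subgroup G, BS p N S Y D → OpS p Y

/-- **BY2** (medium). From NAB, OQN, FCM. `D ⊓ Y = ⊥`, `centralizer D = Y`, `O_p(D) = 1`, `p` divides `|D|` and `|Y|`.

PROOF. An element `z` of `D ⊓ Y` commutes with `Y`, so with all conjugates `K ≠ S` (`K ≤ Y`), and with `S` (`z ∈ Y`): `z ∈ B := centralizer N` (FCM), and `B ≤ Y` (`S ≤ N`), so `z` commutes with `B`: `z` is in the centre of `B`, an abelian normal subgroup of `G`, trivial by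
NAB. `Y ≤ centralizer D` is clear; `S ≤ D` so `centralizer D ≤ centralizer S = Y`. `O_p(D)`: let `T ≤ D` be a `p`-group normal in `D`. `D` normalises `S`: `D` commutes with all `K ≠ S`, so for `d ∈ D` `Cj d` fixes all `K ≠ S`, and permutes the conjugates, so fixes `S`. For `t ∈ T`, `s ∈ S`:
`t s t⁻¹ s⁻¹ ∈ T ⊓ S` (`S ≤ D` normalises `T`), a normal `p`-subgroup of the simple nonabelian `S`, so `⊥`. So `T ≤ Y ⊓ D = ⊥`. `p` divides `|S|`, which divides `|D|`: otherwise `S` is a `p'`-group normalised by `N`, `S = ⊥` by OQN. `p` divides `|Y|`: if some conjugate `K ≠ S` exists, `K ≤ Y` and `|K| = |S|`; otherwise `S` and `Y` are normal in `G`,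
and `Y ≠ ⊥`, so `p` divides `|Y|` by `oq`. -/
def BY2_stmt : Prop :=
  ∀ (G : Type) [Group G] [Finite G] (p : ℕ), p.Prime → ∀ N S Y D : Subgroup G, BS p N S Y D →
    D ⊓ Y = ⊥ ∧ Subgroup.centralizer (D : Set G) = Y ∧ OpS p D ∧ p ∣ Nat.card D ∧ p ∣ Nat.card Y ∧ S ≤ D

/-- **BY3** (medium). From FCM. A conjugate `Cj e S ≠ S`: then `D ≤ Cj e Y`, and `D`, `Cj e D` commute and intersect trivially (given `D ⊓ Y = ⊥`).

PROOF. `Cj e S ≤ Y` (different conjugates commute), so `D = centralizer Y ≤ centralizer (Cj e S) = Cj e Y`. `Cj e D = centralizer (Cj e Y)` commutes with `D ≤ Cj e Y`. An element of `D ⊓ Cj e D` commutes with `D` (as it is in `Cj e D`) so it is in `centralizer D = Y`, and in `D`: trivial. -/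
def BY3_stmt : Prop :=
  ∀ (G : Type) [Group G] [Finite G] (p : ℕ), p.Prime → ∀ N S Y D : Subgroup G, BS p N S Y D →
    D ⊓ Y = ⊥ → Subgroup.centralizer (D : Set G) = Y → ∀ e : G, Cj e S ≠ S →
    D ≤ Cj e Y ∧ (∀ x ∈ D, ∀ y ∈ Cj e D, x * y = y * x) ∧ D ⊓ Cj e D = ⊥

/-- **BNO** (short). From nothing. `Cj e S = S` implies `Cj e Y = Y`, `Cj e D = D`. -/
def BNO_stmt : Prop :=
  ∀ (G : Type) [Group G] [Finite G] (p : ℕ) (N S Y D : Subgroup G), BS p N S Y D → ∀ e : G, Cj e S = S →
    Cj e Y = Y ∧ Cj e D = D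

/-- **B3** (medium). From ST2, DRG, BY1, BY2, BY3, BNO. `D` has `p`-rank one.

PROOF. `u ∈ D` from DRG (`RkS p 1 D`, BY2). `u^p ≠ 1`: otherwise `zpowers u ≤ D` is elementary abelian and stable under `u`, so `u = 1` and `1` stabilises all subgroups of `D`, but `D` has a subgroup of order `p` (BY2): contradiction to `Der`. ST2 with `X = D`:
first hypothesis: `E` elementary abelian, `Stb u E`. For `e ∈ E`: if `Cj e S ≠ S` then by BY3 `w := e u e⁻¹ ∈ Cj e D` commutes with `u ∈ D`; `u⁻¹ w = (u⁻¹ e u) e⁻¹ ∈ E`, so `(u⁻¹ w)^p = 1`, `w^p = u^p ∈ D ⊓ Cj e D = ⊥`: contradiction. So `Cj e S = S`, `Cj e D = D` (BNO). `E ⊓ D` is elementary abelian and stable under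
`u ∈ D`, so `⊥` (`Der`). For `e ∈ E`: `e u e⁻¹ u⁻¹ ∈ D` and `= e (u e⁻¹ u⁻¹) ∈ E`, so `= 1`. Second: if `E` commutes with `u` it is stable under `u`, so by the first part `Nz E D` and `E ⊓ D = ⊥`. Third: `OpS p C`, `C = centralizer {u}`: an element `x ∈ C` has `Cj x S = S` (otherwise `u = x u x⁻¹ ∈ D ⊓ Cj x D = ⊥`), so `C`
normalises `Y` (BNO), `Y ≤ C` (`u ∈ D`). Let `R ≤ C` be a `p`-group normal in `C`. `R ⊓ Y` is a `p`-group normal in `Y`, so `⊥` (BY1); for `r ∈ R`, `y ∈ Y`: `r y r⁻¹ y⁻¹ ∈ R ⊓ Y`, so `R` commutes with `Y`: `R ≤ D`. If `R ≠ ⊥` let `z ∈ R`, `z ≠ 1`, `z^p = 1`: `zpowers z ≤ D` is elementary abelian and stable under `u`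
(`z ∈ C`): contradiction to `Der`. -/
def B3_stmt : Prop :=
  ∀ (G : Type) [Group G] [Finite G] (p : ℕ), p.Prime → Rk p 3 G → ∀ N S Y D : Subgroup G, BS p N S Y D →
    RkS p 1 D → Q1 p G

/-- **B4** (medium). From ST2, DRG, BY1, BY2. `Y` has `p`-rank one and `S` is normal.

PROOF. `Y`, `D` are normal in `G` (centralisers of normal subgroups). `u ∈ Y` from DRG (BY1, BY2). ST2 with `X = Y`: first hypothesis: `E ⊓ Y` is stable under `u`, so `⊥`; for `e ∈ E`, `e u e⁻¹ u⁻¹ ∈ Y` (normal) and `∈ E`, so `= 1`. Second: `Y` is normal, and `E` is stable under `u`, so `E ⊓ Y = ⊥`. Third: `R ≤ C = centralizer {u}` a `p`-group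
normal in `C`; `D ≤ C` (`D` commutes with `Y ∋ u`); `R ⊓ D` is a `p`-group normal in `D`, so `⊥` (BY2); `r d r⁻¹ d⁻¹ ∈ R ⊓ D` for `r ∈ R`, `d ∈ D` (`D` normal in `G`), so `R ≤ centralizer D = Y`; if `R ≠ ⊥` then a subgroup of order `p` of `R` is stable under `u`: contradiction to `Der`. -/
def B4_stmt : Prop :=
  ∀ (G : Type) [Group G] [Finite G] (p : ℕ), p.Prime → Rk p 3 G → ∀ N S Y D : Subgroup G, BS p N S Y D →
    S.Normal → RkS p 1 Y → Q1 p G

/-- **BFI** (short-medium). From BY2, BY3, B3, B4.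

PROOF. If `RkS p 1 D`: B3. Otherwise there is `E₁ ≤ D` elementary abelian of order `≥ p^2` (a power of `p`). Then `RkS p 1 Y`: if `E₂ ≤ Y` is elementary abelian of order `≥ p^2` then `E₁ ⊔ E₂` is elementary abelian (`D`, `Y` commute) of order `|E₁| |E₂| ≥ p^4` (`D ⊓ Y = ⊥`), contradiction to
`Rk p 3 G`. `S` is normal: if `Cj e S ≠ S` then `D ≤ Cj e Y` (BY3), so `Cj e⁻¹ E₁ ≤ Y` has order `≥ p^2`: contradiction. So B4. -/
def BFI_stmt : Prop :=
  ∀ (G : Type) [Group G] [Finite G] (p : ℕ), p.Prime → Rk p 3 G → ∀ N S Y D : Subgroup G, BS p N S Y D → Q1 p G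

/-! ## Part 6: the end -/

/-- **RES** (medium). From R2, OQN, NAB, MNS, FCM, RKQ, HYQ, QLF, AST, A1U, A1R, AFI, A2F, BFI.

PROOF. Strong induction on `|G|`. If `G` is trivial then `Rk p 2 G` and R2. Suppose `G` has a nontrivial normal `p'`-subgroup; let `V` be one of minimal order: a minimal normal subgroup. If `Op1 p (G / V)`: by RKQ, HYQ and induction `Q1 p (G / V)`, so QLF. If not: `M` from AST. `V` commutative: A1U, A1R, AFI. Otherwise MNS
gives `S` and A2F. Now suppose `Oq1 p G`, and let `N` be a minimal normal subgroup (`G` is nontrivial); `N` is not commutative (NAB); `S` from MNS; `p` divides `|S|`, otherwise `S = ⊥` by OQN. `Y = centralizer S`. If `Y = ⊥` then every conjugate of `S` is `S` (different conjugates commute, FCM), so `S` is normal, and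
`HypA` with `φ = id` gives `Q1 p G`. If `Y ≠ ⊥`: BFI with `D = centralizer Y`. -/
def RES_stmt : Prop :=
  ∀ (G : Type) [Group G] [Finite G] (p : ℕ), p.Prime → Op1 p G → Rk p 3 G → HypA p G → HypB p G → Q1 p G

end RK
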