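import Pool.Agent.helper70.RK.Spec
set_option autoImplicit false
namespace RK
open QS (Lef EAb)
open LEQ (Stb Nz XS Ls Mb FS mem_FS)

section tree

variable {V : Type} {T : SimpleGraph V}

/-- the neighbour closer to `y` is unique -/
theorem TRE_uniq (hT : T.IsTree) {y x z z' : V} (h1 : T.Adj z x) (h2 : T.Adj z' x)
    (d1 : T.dist y z + 1 = T.dist y x) (d2 : T.dist y z' + 1 = T.dist y x) : z = z' := by
  obtain ⟨p, hp, hpl⟩ := hT.connected.exists_path_of_dist y z
  obtain ⟨q, hq, hql⟩ := hT.connected.exists_path_of_dist y z'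
  have e1 : (p.concat h1).IsPath := by
    apply SimpleGraph.Walk.isPath_of_length_eq_dist
    rw [SimpleGraph.Walk.length_concat, hpl, d1]
  have e2 : (q.concat h2).IsPath := by
    apply SimpleGraph.Walk.isPath_of_length_eq_dist
    rw [SimpleGraph.Walk.length_concat, hql, d2]
  have e3 := hT.isAcyclic.path_unique ⟨_, e1⟩ ⟨_, e2⟩
  have e4 : p.concat h1 = q.concat h2 := congrArg Subtype.val e3
  obtain ⟨h, -⟩ := SimpleGraph.Walk.concat_inj e4
  exact h

theorem TRE_parity {col : V → Bool} (hcol : ∀ v w, T.Adj v w → col v ≠ col w) {a b : V} (w : T.Walk a b) :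
    Even w.length ↔ col a = col b := by
  induction w with
  | nil => simp
  | @cons a c b h p ih =>
    rw [SimpleGraph.Walk.length_cons, Nat.even_add_one, ih]
    have := hcol _ _ h
    revert this
    cases col a <;> cases col b <;> cases col c <;> simp

theorem TRE_ne {col : V → Bool} (hcol : ∀ v w, T.Adj v w → col v ≠ col w) (hc : T.Connected) {v x : V}
    (h : T.Adj v x) (y : V) : T.dist y v ≠ T.dist y x := by
  intro heq
  obtain ⟨p, hp⟩ := hc.exists_walk_length_eq_dist y v
  obtain ⟨q, hq⟩ := hc.exists_walk_length_eq_dist y x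
  have h1 := TRE_parity hcol p
  have h2 := TRE_parity hcol q
  rw [hp, heq] at h1
  rw [hq] at h2
  have h3 := hcol _ _ h
  have h4 : (col y = col v) ↔ (col y = col x) := h1.symm.trans h2
  revert h3 h4
  cases col y <;> cases col v <;> cases col x <;> simp

theorem TRE_step {col : V → Bool} (hcol : ∀ v w, T.Adj v w → col v ≠ col w) (hc : T.Connected) {v x : V}
    (h : T.Adj v x) (y : V) : T.dist y x = T.dist y v + 1 ∨ T.dist y v = T.dist y x + 1 := by
  have h1 := TRE_ne hcol hc h y
  have h2 : T.dist v x = 1 := SimpleGraph.dist_eq_one_iff_adj.2 h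
  have h3 := hc.dist_triangle (u := y) (v := v) (w := x)
  have h4 := hc.dist_triangle (u := y) (v := x) (w := v)
  have h5 : T.dist x v = 1 := by rw [SimpleGraph.dist_comm]; exact h2
  omega

/-- a neighbour of `a` closer to `x` -/
theorem TRE_pred (hc : T.Connected) {x a : V} (h : x ≠ a) :
    ∃ b, T.Adj b a ∧ T.dist x b + 1 = T.dist x a := by
  obtain ⟨p, hp⟩ := hc.exists_walk_length_eq_dist x a
  have hpos : 0 < T.dist x a := hc.pos_dist_of_ne h
  have hnil : ¬ p.Nil := by
    intro hn
    rw [SimpleGraph.Walk.nil_iff_length_eq] at hn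
    omega
  refine ⟨p.penultimate, p.adj_penultimate hnil, ?_⟩
  have h1 : T.dist x p.penultimate ≤ p.length - 1 := by
    have h2 := SimpleGraph.dist_le p.dropLast
    have h3 : p.dropLast.length = p.length - 1 := by
      simp [SimpleGraph.Walk.dropLast]
    omega
  have h4 := hc.dist_triangle (u := x) (v := p.penultimate) (w := a)
  have h5 : T.dist p.penultimate a = 1 := SimpleGraph.dist_eq_one_iff_adj.2 (p.adj_penultimate hnil)
  omega

/-- monotonicity along geodesics -/
theorem TRE_mono {col : V → Bool} (hcol : ∀ v w, T.Adj v w → col v ≠ col w) (hT : T.IsTree) {v x y : V}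
    (hvx : T.Adj v x) (hy : T.dist y x = T.dist y v + 1) :
    ∀ n : ℕ, ∀ a : V, T.dist x a = n → T.dist v a = n + 1 → T.dist y a = T.dist y v + (n + 1) := by
  have hc := hT.connected
  intro n
  induction n using Nat.strong_induction_on with
  | _ n ih =>
    intro a hxa hva
    rcases Nat.eq_zero_or_pos n with h0 | hpos
    · subst h0
      have : x = a := (hc.dist_eq_zero_iff).1 hxa
      rw [← this, hy]
    · have hxa' : x ≠ a := by
        intro h
        rw [h, SimpleGraph.dist_self] at hxa
        omega
      obtain ⟨b, hba, hb⟩ := TRE_pred hc hxa'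
      have hxb : T.dist x b = n - 1 := by omega
      have hdvx : T.dist v x = 1 := SimpleGraph.dist_eq_one_iff_adj.2 hvx
      have hdba : T.dist b a = 1 := SimpleGraph.dist_eq_one_iff_adj.2 hba
      have t1 := hc.dist_triangle (u := v) (v := x) (w := b)
      have t2 := hc.dist_triangle (u := v) (v := b) (w := a)
      have hvb : T.dist v b = n := by omega
      have hyb : T.dist y b = T.dist y v + n := by
        have := ih (n - 1) (by omega) b hxb (by omega)
        omega
      -- the predecessor `c` of `b`
      have hc' : ∃ c, T.Adj c b ∧ T.dist v c + 1 = n ∧ T.dist y c + 1 = T.dist y b := by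
        rcases Nat.eq_zero_or_pos (n - 1) with h1 | h1
        · have hn1 : n = 1 := by omega
          have hxb' : x = b := (hc.dist_eq_zero_iff).1 (by omega)
          subst hxb'
          exact ⟨v, hvx, by rw [SimpleGraph.dist_self]; omega, hy.symm⟩
        · have hxb' : x ≠ b := by
            intro h
            rw [h, SimpleGraph.dist_self] at hxb
            omega
          obtain ⟨c, hcb, hxc⟩ := TRE_pred hc hxb'
          have hdcb : T.dist c b = 1 := SimpleGraph.dist_eq_one_iff_adj.2 hcb
          have t3 := hc.dist_triangle (u := v) (v := x) (w := c)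
          have t4 := hc.dist_triangle (u := v) (v := c) (w := b)
          have hvc : T.dist v c = n - 1 := by omega
          refine ⟨c, hcb, by omega, ?_⟩
          have := ih (n - 2) (by omega) c (by omega) (by omega)
          omega
      obtain ⟨c, hcb, hvc, hyc⟩ := hc'
      rcases TRE_step hcol hc hba y with h | h
      · omega
      · exfalso
        have hac : a = c := TRE_uniq hT hba.symm hcb (by omega) hyc
        subst hac
        omega

open Classical in
/-- the total distance -/
noncomputable def TRE_f [Fintype V] (T : SimpleGraph V) (v : V) : ℕ := ∑ w, T.dist w v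

/-- two vertices of minimal total distance are equal or adjacent -/
theorem TRE_min [Fintype V] {col : V → Bool} (hcol : ∀ v w, T.Adj v w → col v ≠ col w) (hT : T.IsTree) {v w : V}
    (hv : ∀ a, TRE_f T v ≤ TRE_f T a) (hw : ∀ a, TRE_f T w ≤ TRE_f T a) (hne : v ≠ w) : T.Adj v w := by
  classical
  have hc := hT.connected
  by_contra hadj
  -- `x` next to `v` towards `w`
  obtain ⟨x, hxv, hwx⟩ := TRE_pred hc (x := w) (a := v) hne.symm
  have hvx : T.Adj v x := hxv.symm
  have hk : T.dist v w = T.dist x w + 1 := by
    rw [SimpleGraph.dist_comm (u := v), SimpleGraph.dist_comm (u := x)]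
    exact hwx.symm
  have hxw : x ≠ w := by
    rintro rfl
    exact hadj hvx
  obtain ⟨x', hx'w, hxx'⟩ := TRE_pred hc hxw
  have hdx'w : T.dist x' w = 1 := SimpleGraph.dist_eq_one_iff_adj.2 hx'w
  have hdvx : T.dist v x = 1 := SimpleGraph.dist_eq_one_iff_adj.2 hvx
  have t1 := hc.dist_triangle (u := v) (v := x) (w := x')
  have t2 := hc.dist_triangle (u := v) (v := x') (w := w)
  -- the half spaces
  let A : Finset V := Finset.univ.filter (fun y => T.dist y x = T.dist y v + 1)
  let A' : Finset V := Finset.univ.filter (fun y => T.dist y x' = T.dist y w + 1)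
  have hdisj : Disjoint A A' := by
    rw [Finset.disjoint_left]
    intro y hyA hyA'
    have h1 : T.dist y x = T.dist y v + 1 := (Finset.mem_filter.1 hyA).2
    have h2 : T.dist y x' = T.dist y w + 1 := (Finset.mem_filter.1 hyA').2
    have h3 := TRE_mono hcol hT hvx h1 (T.dist x w) w rfl hk
    have h4 := hc.dist_triangle (u := y) (v := v) (w := x')
    omega
  have hx1 : x ∉ A := by
    intro h
    have h1 : T.dist x x = T.dist x v + 1 := (Finset.mem_filter.1 h).2
    rw [SimpleGraph.dist_self] at h1
    omega
  have hx2 : x ∉ A' := by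
    intro h
    have h1 : T.dist x x' = T.dist x w + 1 := (Finset.mem_filter.1 h).2
    omega
  have hcount : A.card + A'.card + 1 ≤ Fintype.card V := by
    have h1 : (insert x (A ∪ A')).card = A.card + A'.card + 1 := by
      rw [Finset.card_insert_of_notMem, Finset.card_union_of_disjoint hdisj]
      intro h
      rcases Finset.mem_union.1 h with h | h
      · exact hx1 h
      · exact hx2 h
    rw [← h1]
    exact Finset.card_le_univ _
  -- comparison of the total distances
  have hgen : ∀ a b : V, T.Adj a b → TRE_f T a ≤ TRE_f T b →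
      Fintype.card V ≤ 2 * (Finset.univ.filter (fun y => T.dist y b = T.dist y a + 1)).card := by
    intro a b hab hle
    have h1 : ∀ y : V, (T.dist y b : ℤ) - T.dist y a = 2 * (if T.dist y b = T.dist y a + 1 then 1 else 0) - 1 := by
      intro y
      rcases TRE_step hcol hc hab y with h | h
      · rw [if_pos h, h]; push_cast; ring
      · rw [if_neg (by omega), h]; push_cast; ring
    have h2 : (∑ y : V, ((T.dist y b : ℤ) - T.dist y a)) =
        2 * ((Finset.univ.filter (fun y => T.dist y b = T.dist y a + 1)).card : ℤ) - Fintype.card V := by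
      rw [Finset.sum_congr rfl (fun y _ => h1 y), Finset.sum_sub_distrib, ← Finset.mul_sum, Finset.sum_boole]
      simp
    have h3 : (∑ y : V, ((T.dist y b : ℤ) - T.dist y a)) = (TRE_f T b : ℤ) - TRE_f T a := by
      rw [Finset.sum_sub_distrib]
      unfold TRE_f
      push_cast
      rfl
    have h4 : (TRE_f T a : ℤ) ≤ TRE_f T b := by exact_mod_cast hle
    have h5 : (Fintype.card V : ℤ) ≤ 2 * ((Finset.univ.filter (fun y => T.dist y b = T.dist y a + 1)).card : ℤ) := by
      linarith
    exact_mod_cast h5
  have g1 := hgen v x hvx (hv x)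
  have g2 := hgen w x' hx'w.symm (hw x')
  change Fintype.card V ≤ 2 * A.card at g1
  change Fintype.card V ≤ 2 * A'.card at g2
  omega

end tree

theorem TRE : TRE_stmt := by
  classical
  intro V _ T hT col hcol
  have := Fintype.ofFinite V
  have hc := hT.connected
  have hne : Nonempty V := hc.nonempty
  obtain ⟨v, -, hv⟩ := Finset.exists_min_image (Finset.univ : Finset V) (TRE_f T) Finset.univ_nonempty
  have hv' : ∀ a, TRE_f T v ≤ TRE_f T a := fun a => hv a (Finset.mem_univ a)
  refine ⟨v, fun σ hσ hσc => ?_⟩
  by_contra hfix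
  have hle : TRE_f T (σ v) ≤ TRE_f T v := by
    unfold TRE_f
    rw [← Equiv.sum_comp σ (fun w => T.dist w (σ v))]
    refine Finset.sum_le_sum (fun w _ => ?_)
    obtain ⟨p, hp⟩ := hc.exists_walk_length_eq_dist w v
    let f : T →g T := ⟨σ, fun {a b} h => hσ a b h⟩
    have h1 := SimpleGraph.dist_le (p.map f)
    rw [SimpleGraph.Walk.length_map, hp] at h1
    exact h1
  have hmin : ∀ a, TRE_f T (σ v) ≤ TRE_f T a := fun a => hle.trans (hv' a)
  have hadj := TRE_min hcol hT hmin hv' hfix
  exact hcol _ _ hadj (hσc v)

end RK
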